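import Pool.Agent.R539.BB.Stm

/-!
# Chang's theorem at level `1/2`
-/

set_option autoImplicit false

open Finset
open scoped BigOperators ComplexConjugate

namespace Pool.Agent.R539.BB

section

variable {G : Type} [AddCommGroup G] [Fintype G]

theorem norm_add_sub_one_le (f g : AddChar G ℂ) (z : G) :
    ‖(f + g) z - 1‖ ≤ ‖f z - 1‖ + ‖g z - 1‖ := by
  rw [AddChar.add_apply]
  have h : f z * g z - 1 = (f z - 1) * g z + (g z - 1) := by ring
  rw [h]
  refine (norm_add_le _ _).trans ?_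
  rw [norm_mul, AddChar.norm_apply, mul_one]

theorem norm_sum_sub_one_le {ι : Type} (s : Finset ι) (f : ι → AddChar G ℂ) (z : G) :
    ‖(∑ i ∈ s, f i) z - 1‖ ≤ ∑ i ∈ s, ‖f i z - 1‖ := by
  classical
  induction s using Finset.induction_on with
  | empty => simp
  | insert a s ha ih =>
    rw [Finset.sum_insert ha, Finset.sum_insert ha]
    exact (norm_add_sub_one_le _ _ _).trans (add_le_add le_rfl ih)

theorem norm_smul_sub_one_le (ε : ℤ) (hε : ε = -1 ∨ ε = 0 ∨ ε = 1) (f : AddChar G ℂ) (z : G) :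
    ‖(ε • f) z - 1‖ ≤ ‖f z - 1‖ := by
  rcases hε with h | h | h
  · subst h
    rw [neg_one_zsmul, AddChar.neg_apply, AddChar.map_neg_eq_conj]
    have : conj (f z) - 1 = conj (f z - 1) := by simp
    rw [this, RCLike.norm_conj]
  · subst h
    simp
  · subst h
    simp

theorem dissoc_card_le (X : Finset G) (hX : X.Nonempty) (D : Finset (AddChar G ℂ))
    (hD : ∀ ψ ∈ D, (X.card : ℝ) / 2 < ‖∑ x ∈ X, ψ x‖) (hdis : AddDissociated (D : Set (AddChar G ℂ))) :
    (D.card : ℝ) ≤ 8 * Real.log ((Fintype.card G : ℝ) / X.card) := by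
  classical
  have hXpos : (0 : ℝ) < X.card := by exact_mod_cast hX.card_pos
  set w : AddChar G ℂ → ℂ := fun ψ => ∑ x ∈ X, ψ x with hw
  set u : AddChar G ℂ → ℂ := fun ψ => conj (w ψ) / (‖w ψ‖ : ℂ) with hu
  have hwpos : ∀ ψ ∈ D, 0 < ‖w ψ‖ := fun ψ hψ => lt_of_le_of_lt (by positivity) (hD ψ hψ)
  have hunorm : ∀ ψ ∈ D, ‖u ψ‖ = 1 := by
    intro ψ hψ
    have := hwpos ψ hψ
    rw [hu]
    simp only
    rw [norm_div, RCLike.norm_conj, Complex.norm_real, norm_norm, div_self this.ne']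
  set F : G → ℝ := fun a => ∑ ψ ∈ D, (u ψ * ψ a).re with hF
  set c : AddChar G ℂ → ℝ := fun ψ => if ψ ∈ D then Real.cosh (1 / 2) else 1 with hc
  set d : AddChar G ℂ → ℂ := fun ψ => if ψ ∈ D then (Real.sinh (1 / 2) : ℂ) * u ψ else 0 with hd
  have hsub : {ψ | d ψ ≠ 0} ⊆ (D : Set (AddChar G ℂ)) := by
    intro ψ hψ
    by_contra hcon
    apply hψ
    rw [hd]
    simp only
    rw [if_neg]
    exact hcon
  have hrand := AddDissociated.randomisation c d (hdis.subset hsub)
  have hprodc : ∏ ψ, c ψ = Real.cosh (1 / 2) ^ D.card := by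
    rw [hc, Finset.prod_ite_mem, Finset.univ_inter, Finset.prod_const]
  have hexp : ∀ a : G, Real.exp (1 / 2 * F a) ≤ ∏ ψ, (c ψ + (d ψ * ψ a).re) := by
    intro a
    have h1 : ∏ ψ, (c ψ + (d ψ * ψ a).re) =
        ∏ ψ ∈ D, (Real.cosh (1 / 2) + (u ψ * ψ a).re * Real.sinh (1 / 2)) := by
      rw [← Finset.prod_subset (Finset.subset_univ D)]
      · refine Finset.prod_congr rfl fun ψ hψ => ?_
        simp only [hc, hd, if_pos hψ]
        rw [mul_assoc, Complex.re_ofReal_mul, mul_comm]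
      · intro ψ _ hψ
        simp only [hc, hd, if_neg hψ]
        simp
    rw [h1]
    have h2 : (1 / 2 : ℝ) * F a = ∑ ψ ∈ D, ((u ψ * ψ a).re * (1 / 2)) := by
      rw [hF, Finset.mul_sum]
      exact Finset.sum_congr rfl fun ψ _ => mul_comm _ _
    rw [h2, Real.exp_sum]
    refine Finset.prod_le_prod (fun ψ _ => (Real.exp_pos _).le) fun ψ hψ => ?_
    refine Real.exp_mul_le_cosh_add_mul_sinh ?_ _
    refine (Complex.abs_re_le_norm _).trans ?_
    rw [norm_mul, hunorm ψ hψ, AddChar.norm_apply, mul_one]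
  have hNpos : (0 : ℝ) < Fintype.card G := by exact_mod_cast Fintype.card_pos
  have hsumall : ∑ a : G, Real.exp (1 / 2 * F a) ≤
      (Fintype.card G : ℝ) * Real.exp ((D.card : ℝ) / 8) := by
    have h1 : ∑ a : G, Real.exp (1 / 2 * F a) ≤ ∑ a : G, ∏ ψ, (c ψ + (d ψ * ψ a).re) :=
      Finset.sum_le_sum fun a _ => hexp a
    have h2 : ∑ a : G, ∏ ψ, (c ψ + (d ψ * ψ a).re) =
        (Fintype.card G : ℝ) * Real.cosh (1 / 2) ^ D.card := by
      rw [← hprodc, ← hrand, Finset.expect_univ]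
      rw [NNRat.smul_def]
      push_cast
      field_simp
    have h3 : Real.cosh (1 / 2) ^ D.card ≤ Real.exp ((D.card : ℝ) / 8) := by
      have := Real.cosh_le_exp_half_sq (1 / 2)
      calc Real.cosh (1 / 2) ^ D.card ≤ (Real.exp ((1 / 2) ^ 2 / 2)) ^ D.card :=
            pow_le_pow_left₀ (Real.cosh_pos _).le this _
        _ = Real.exp ((D.card : ℝ) / 8) := by
            rw [← Real.exp_nat_mul]
            congr 1
            ring
    calc _ ≤ _ := h1
      _ = _ := h2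
      _ ≤ _ := mul_le_mul_of_nonneg_left h3 hNpos.le
  have hsumX : ∑ x ∈ X, Real.exp (1 / 2 * F x) ≤
      (Fintype.card G : ℝ) * Real.exp ((D.card : ℝ) / 8) :=
    (Finset.sum_le_univ_sum_of_nonneg fun a => (Real.exp_pos _).le).trans hsumall
  have hjensen : Real.exp (∑ x ∈ X, (1 / (X.card : ℝ)) * (1 / 2 * F x)) ≤
      ∑ x ∈ X, (1 / (X.card : ℝ)) * Real.exp (1 / 2 * F x) := by
    have := convexOn_exp.map_sum_le (t := X) (w := fun _ => 1 / (X.card : ℝ))
      (p := fun x => 1 / 2 * F x) (fun _ _ => by positivity)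
      (by rw [Finset.sum_const, nsmul_eq_mul]; field_simp) (fun _ _ => Set.mem_univ _)
    simpa [smul_eq_mul] using this
  have hmean : (D.card : ℝ) / 4 ≤ ∑ x ∈ X, (1 / (X.card : ℝ)) * (1 / 2 * F x) := by
    have h1 : ∑ x ∈ X, F x = ∑ ψ ∈ D, ‖w ψ‖ := by
      rw [hF, Finset.sum_comm]
      refine Finset.sum_congr rfl fun ψ hψ => ?_
      have hpos := hwpos ψ hψ
      rw [← Complex.re_sum, ← Finset.mul_sum]
      have : u ψ * w ψ = (‖w ψ‖ : ℂ) := by
        rw [hu]
        simp only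
        rw [div_mul_eq_mul_div, Complex.conj_mul']
        field_simp
      show (u ψ * w ψ).re = _
      rw [this, Complex.ofReal_re]
    have h2 : (D.card : ℝ) * ((X.card : ℝ) / 2) ≤ ∑ ψ ∈ D, ‖w ψ‖ := by
      rw [← nsmul_eq_mul, ← Finset.sum_const]
      exact Finset.sum_le_sum fun ψ hψ => (hD ψ hψ).le
    rw [← Finset.mul_sum, ← Finset.mul_sum, h1]
    calc (D.card : ℝ) / 4 = 1 / (X.card : ℝ) * (1 / 2 * ((D.card : ℝ) * ((X.card : ℝ) / 2))) := by
          field_simp; ring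
      _ ≤ _ := by gcongr
  have hfin : Real.exp ((D.card : ℝ) / 4) ≤
      (Fintype.card G : ℝ) / X.card * Real.exp ((D.card : ℝ) / 8) := by
    calc Real.exp ((D.card : ℝ) / 4) ≤ _ := Real.exp_le_exp.2 hmean
      _ ≤ _ := hjensen
      _ = 1 / (X.card : ℝ) * ∑ x ∈ X, Real.exp (1 / 2 * F x) := by rw [← Finset.mul_sum]
      _ ≤ 1 / (X.card : ℝ) * ((Fintype.card G : ℝ) * Real.exp ((D.card : ℝ) / 8)) := by gcongr
      _ = _ := by ring
  have hlog := Real.log_le_log (Real.exp_pos _) hfin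
  rw [Real.log_exp, Real.log_mul (by positivity) (Real.exp_pos _).ne', Real.log_exp] at hlog
  linarith

end

theorem chang : ChangStm := by
  intro G _ _ _ X hX
  classical
  set S : Finset (AddChar G ℂ) := Finset.univ.filter fun ψ => (X.card : ℝ) / 2 < ‖∑ x ∈ X, ψ x‖
    with hS
  have hlog0 : 0 ≤ 8 * Real.log ((Fintype.card G : ℝ) / X.card) := by
    have hXpos : (0 : ℝ) < X.card := by exact_mod_cast hX.card_pos
    have : (1 : ℝ) ≤ (Fintype.card G : ℝ) / X.card := by
      rw [le_div_iff₀ hXpos, one_mul]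
      exact_mod_cast Finset.card_le_univ X
    have := Real.log_nonneg this
    linarith
  obtain ⟨Λ, hΛS, hΛcard, hspan⟩ := exists_subset_addSpan_card_le_of_forall_addDissociated
    (s := S) (d := ⌊8 * Real.log ((Fintype.card G : ℝ) / X.card)⌋₊) (by
      intro D hDS hdis
      rw [Nat.le_floor_iff hlog0]
      refine dissoc_card_le X hX D (fun ψ hψ => ?_) hdis
      have := hDS hψ
      rw [hS, Finset.mem_filter] at this
      exact this.2)
  refine ⟨Λ, ?_, ?_⟩
  · rw [Nat.le_floor_iff hlog0] at hΛcard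
    exact hΛcard
  · intro ψ hψ z r hr
    have hψS : ψ ∈ S := by
      rw [hS, Finset.mem_filter]
      exact ⟨Finset.mem_univ _, hψ⟩
    obtain ⟨ε, hε, hsum⟩ := mem_addSpan.1 (hspan hψS)
    rw [← hsum]
    refine (norm_sum_sub_one_le Λ (fun l => ε l • l) z).trans ?_
    rw [← nsmul_eq_mul, ← Finset.sum_const]
    exact Finset.sum_le_sum fun l hl => (norm_smul_sub_one_le _ (hε l) l z).trans (hr l hl)

end Pool.Agent.R539.BB
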