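import Pool.Agent.R539.BB.Stm

set_option autoImplicit false

open Finset
open scoped Pointwise

namespace Pool.Agent.R539.BB

/-- Hoeffding's inequality for sampling with replacement. -/
theorem hoeff {G : Type*} [DecidableEq G] (A : Finset G) (f : G → ℝ) (hf : ∀ a ∈ A, |f a| ≤ 1)
    (h0 : ∑ a ∈ A, f a = 0) (M : ℕ) (η : ℝ) (hη : 0 ≤ η) :
    (((Fintype.piFinset fun _ : Fin M => A).filter fun a => η * M < ∑ j, f (a j)).card : ℝ) ≤
      (A.card : ℝ) ^ M * Real.exp (-(η ^ 2 * M / 2)) := by
  have h1 : ∑ a ∈ A, Real.exp (f a * η) ≤ A.card * Real.exp (η ^ 2 / 2) := by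
    calc ∑ a ∈ A, Real.exp (f a * η) ≤ ∑ a ∈ A, (Real.cosh η + f a * Real.sinh η) :=
          Finset.sum_le_sum fun a ha => Real.exp_mul_le_cosh_add_mul_sinh (hf a ha) η
      _ = A.card * Real.cosh η := by
          rw [Finset.sum_add_distrib, ← Finset.sum_mul, h0, Finset.sum_const, nsmul_eq_mul]
          ring
      _ ≤ _ := mul_le_mul_of_nonneg_left (Real.cosh_le_exp_half_sq η) (by positivity)
  have h2 : ∑ a ∈ Fintype.piFinset (fun _ : Fin M => A), Real.exp ((∑ j, f (a j)) * η) =
      (∑ a ∈ A, Real.exp (f a * η)) ^ M := by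
    have : ∀ a : Fin M → G, Real.exp ((∑ j, f (a j)) * η) = ∏ j, Real.exp (f (a j) * η) := by
      intro a
      rw [Finset.sum_mul, Real.exp_sum]
    simp_rw [this]
    have h' := Finset.prod_univ_sum (fun _ : Fin M => A) (fun _ a => Real.exp (f a * η))
    rw [← h']
    simp
  have h3 : (((Fintype.piFinset fun _ : Fin M => A).filter fun a => η * M < ∑ j, f (a j)).card : ℝ) *
      Real.exp (η * M * η) ≤ ∑ a ∈ Fintype.piFinset (fun _ : Fin M => A), Real.exp ((∑ j, f (a j)) * η) := by
    rw [← nsmul_eq_mul, ← Finset.sum_const]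
    calc ∑ a ∈ (Fintype.piFinset fun _ : Fin M => A).filter (fun a => η * M < ∑ j, f (a j)),
          Real.exp (η * M * η) ≤
          ∑ a ∈ (Fintype.piFinset fun _ : Fin M => A).filter (fun a => η * M < ∑ j, f (a j)),
            Real.exp ((∑ j, f (a j)) * η) := by
            refine Finset.sum_le_sum fun a ha => ?_
            rw [Finset.mem_filter] at ha
            exact Real.exp_le_exp.2 (mul_le_mul_of_nonneg_right ha.2.le hη)
      _ ≤ _ := Finset.sum_le_sum_of_subset_of_nonneg (Finset.filter_subset _ _)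
            fun _ _ _ => (Real.exp_pos _).le
  have h4 : (∑ a ∈ A, Real.exp (f a * η)) ^ M ≤ (A.card : ℝ) ^ M * Real.exp (η ^ 2 * M / 2) := by
    calc (∑ a ∈ A, Real.exp (f a * η)) ^ M ≤ (A.card * Real.exp (η ^ 2 / 2)) ^ M :=
          pow_le_pow_left₀ (Finset.sum_nonneg fun _ _ => (Real.exp_pos _).le) h1 _
      _ = _ := by
          rw [mul_pow, ← Real.exp_nat_mul]
          congr 2
          ring
  have h5 := h3.trans (h2.le.trans h4)
  have h6 : Real.exp (-(η ^ 2 * M / 2)) = Real.exp (η ^ 2 * M / 2) / Real.exp (η * M * η) := by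
    rw [← Real.exp_sub]
    congr 1
    ring
  rw [h6, ← mul_div_assoc, le_div_iff₀ (Real.exp_pos _)]
  exact h5

/-- two-sided version -/
theorem hoeff2 {G : Type*} [DecidableEq G] (A : Finset G) (f : G → ℝ) (hf : ∀ a ∈ A, |f a| ≤ 1)
    (h0 : ∑ a ∈ A, f a = 0) (M : ℕ) (η : ℝ) (hη : 0 ≤ η) :
    (((Fintype.piFinset fun _ : Fin M => A).filter fun a => η * M < |∑ j, f (a j)|).card : ℝ) ≤
      2 * ((A.card : ℝ) ^ M * Real.exp (-(η ^ 2 * M / 2))) := by
  have h1 := hoeff A f hf h0 M η hη
  have h2 := hoeff A (fun a => - f a) (fun a ha => by rw [abs_neg]; exact hf a ha)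
    (by rw [Finset.sum_neg_distrib, h0, neg_zero]) M η hη
  have h3 : (Fintype.piFinset fun _ : Fin M => A).filter (fun a => η * M < |∑ j, f (a j)|) ⊆
      (Fintype.piFinset fun _ : Fin M => A).filter (fun a => η * M < ∑ j, f (a j)) ∪
      (Fintype.piFinset fun _ : Fin M => A).filter (fun a => η * M < ∑ j, - f (a j)) := by
    intro a ha
    rw [Finset.mem_filter] at ha
    rw [Finset.mem_union, Finset.mem_filter, Finset.mem_filter]
    rcases lt_abs.1 ha.2 with h | h
    · exact Or.inl ⟨ha.1, h⟩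
    · right
      refine ⟨ha.1, ?_⟩
      rw [Finset.sum_neg_distrib]
      exact h
  have h4 : (((Fintype.piFinset fun _ : Fin M => A).filter fun a => η * M < |∑ j, f (a j)|).card : ℝ) ≤
      (((Fintype.piFinset fun _ : Fin M => A).filter fun a => η * M < ∑ j, f (a j)).card : ℝ) +
      (((Fintype.piFinset fun _ : Fin M => A).filter fun a => η * M < ∑ j, - f (a j)).card : ℝ) := by
    have := (Finset.card_le_card h3).trans (Finset.card_union_le _ _)
    exact_mod_cast this
  linarith

variable {G : Type*} [AddCommGroup G] [DecidableEq G]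

/-- telescoping -/
theorem fold (h : G → ℝ) (X : Finset G) (c δ : ℝ)
    (hX : ∀ x ∈ X, ∀ x' ∈ X, ∃ E : Finset G, (E.card : ℝ) ≤ c ∧ ∀ y ∉ E, |h (y + (x - x')) - h y| ≤ δ) :
    ∀ (k : ℕ) (x x' : Fin k → G), (∀ i, x i ∈ X) → (∀ i, x' i ∈ X) →
      ∃ E : Finset G, (E.card : ℝ) ≤ k * c ∧ ∀ y ∉ E, |h (y + ∑ i, (x i - x' i)) - h y| ≤ k * δ := by
  intro k
  induction k with
  | zero =>
    intro x x' _ _
    refine ⟨∅, by simp, fun y _ => by simp⟩
  | succ k ih =>
    intro x x' hx hx'
    obtain ⟨E, hE, hE'⟩ := ih (fun i => x i.succ) (fun i => x' i.succ) (fun i => hx _) (fun i => hx' _)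
    obtain ⟨F, hF, hF'⟩ := hX (x 0) (hx 0) (x' 0) (hx' 0)
    refine ⟨E ∪ F.image (fun y => y - ∑ i : Fin k, (x i.succ - x' i.succ)), ?_, ?_⟩
    · have h1 : ((E ∪ F.image (fun y => y - ∑ i : Fin k, (x i.succ - x' i.succ))).card : ℝ) ≤
          E.card + F.card := by
        have := (Finset.card_union_le E (F.image (fun y => y - ∑ i : Fin k, (x i.succ - x' i.succ)))).trans
          (Nat.add_le_add_left Finset.card_image_le _)
        exact_mod_cast this
      push_cast
      linarith
    · intro y hy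
      rw [Finset.mem_union, not_or] at hy
      have h1 := hE' y hy.1
      have h2 : y + ∑ i : Fin k, (x i.succ - x' i.succ) ∉ F := by
        intro hm
        apply hy.2
        rw [Finset.mem_image]
        exact ⟨_, hm, by abel⟩
      have h3 := hF' _ h2
      rw [Fin.sum_univ_succ]
      have h4 : y + ((x 0 - x' 0) + ∑ i : Fin k, (x i.succ - x' i.succ)) =
          (y + ∑ i : Fin k, (x i.succ - x' i.succ)) + (x 0 - x' 0) := by abel
      rw [h4]
      have h5 := abs_sub_le (h ((y + ∑ i : Fin k, (x i.succ - x' i.succ)) + (x 0 - x' 0)))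
        (h (y + ∑ i : Fin k, (x i.succ - x' i.succ))) (h y)
      push_cast
      linarith

/-- normalised number of representations -/
noncomputable def hh (A : Finset G) (y : G) : ℝ := ((A.filter fun a => y - a ∈ A - A).card : ℝ) / A.card

noncomputable def WW (A : Finset G) {M : ℕ} (a : Fin M → G) (y : G) : ℝ :=
  ((univ.filter fun j => y - a j ∈ A - A).card : ℝ) / M

theorem bad_y (A : Finset G) (hA : A.Nonempty) (M : ℕ) (hM : 0 < M) (η : ℝ) (hη : 0 ≤ η) (y : G) :
    (((Fintype.piFinset fun _ : Fin M => A).filter fun a => η < |WW A a y - hh A y|).card : ℝ) ≤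
      2 * ((A.card : ℝ) ^ M * Real.exp (-(η ^ 2 * M / 2))) := by
  have hAc : (0 : ℝ) < A.card := by exact_mod_cast hA.card_pos
  have hMr : (0 : ℝ) < M := by exact_mod_cast hM
  have hp0 : 0 ≤ hh A y := by unfold hh; positivity
  have hp1 : hh A y ≤ 1 := by
    unfold hh
    rw [div_le_one hAc]
    exact_mod_cast Finset.card_filter_le _ _
  have key := hoeff2 A (fun a => (if y - a ∈ A - A then 1 else 0 : ℝ) - hh A y)
    (by
      intro a _
      rw [abs_le]
      split_ifs <;> constructor <;> linarith)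
    (by
      rw [Finset.sum_sub_distrib, Finset.sum_const, nsmul_eq_mul, ← Finset.sum_filter, Finset.sum_const,
        nsmul_eq_mul, mul_one]
      unfold hh
      field_simp
      ring)
    M η hη
  refine le_trans (le_of_eq ?_) key
  congr 2
  refine Finset.filter_congr fun a _ => ?_
  have h1 : ∑ j, ((if y - a j ∈ A - A then 1 else 0 : ℝ) - hh A y) = M * (WW A a y - hh A y) := by
    rw [Finset.sum_sub_distrib, Finset.sum_const, nsmul_eq_mul, ← Finset.sum_filter, Finset.sum_const,
      nsmul_eq_mul, mul_one]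
    unfold WW
    rw [Finset.card_univ, Fintype.card_fin]
    field_simp
  rw [h1, abs_mul, abs_of_pos hMr, mul_comm η]
  exact (mul_lt_mul_iff_right₀ hMr).symm

/-- the points where `WW` is a bad approximation of `hh` -/
noncomputable def bad (A : Finset G) {M : ℕ} (η : ℝ) (a : Fin M → G) : Finset G :=
  (A + A - A).filter fun y => η < |WW A a y - hh A y|

omit [DecidableEq G] in
theorem not_bad [DecidableEq G] (A : Finset G) {M : ℕ} (η : ℝ) (hη : 0 ≤ η) (a : Fin M → G) (ha : ∀ j, a j ∈ A) (y : G)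
    (hy : y ∉ bad A η a) : |WW A a y - hh A y| ≤ η := by
  unfold bad at hy
  rw [Finset.mem_filter, not_and, not_lt] at hy
  by_cases h : y ∈ A + A - A
  · exact hy h
  · have h1 : ∀ b ∈ A, y - b ∉ A - A := by
      intro b hb hm
      apply h
      obtain ⟨p, hp, q, hq, hpq⟩ := Finset.mem_sub.1 hm
      rw [Finset.mem_sub]
      refine ⟨p + b, Finset.add_mem_add hp hb, q, hq, ?_⟩
      rw [add_sub_right_comm, hpq]
      abel
    have h2 : WW A a y = 0 := by
      unfold WW
      rw [Finset.filter_false_of_mem]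
      · simp
      · intro j _
        exact h1 _ (ha j)
    have h3 : hh A y = 0 := by
      unfold hh
      rw [Finset.filter_false_of_mem]
      · simp
      · intro j hj
        exact h1 _ hj
    rw [h2, h3, sub_self, abs_zero]
    exact hη

/-- most tuples are good -/
theorem good_many (A : Finset G) (hA : A.Nonempty) (K : ℝ) (hK : 1 ≤ K) (h : ((A - A).card : ℝ) ≤ K * A.card)
    (k : ℕ) (hk : 1 ≤ k) (M : ℕ) (hM : 0 < M)
    (hMk : 160 * (k : ℝ) * K ^ 3 ≤ Real.exp (M / (3200 * (k : ℝ) ^ 2))) :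
    (A.card : ℝ) ^ M / 2 ≤
      (((Fintype.piFinset fun _ : Fin M => A).filter fun a => ((bad A (1 / (40 * (k : ℝ))) a).card : ℝ) ≤
        (1 / (40 * (k : ℝ))) * A.card).card : ℝ) := by
  have hAc : (0 : ℝ) < A.card := by exact_mod_cast hA.card_pos
  have hkr : (0 : ℝ) < k := by exact_mod_cast hk
  obtain ⟨η, hη⟩ : ∃ η : ℝ, η = 1 / (40 * (k : ℝ)) := ⟨_, rfl⟩
  have hη0 : 0 < η := by rw [hη]; positivity
  rw [← hη]
  have hY : ((A + A - A).card : ℝ) ≤ K ^ 3 * A.card := by
    have h1 := Finset.pluennecke_ruzsa_inequality_nsmul_sub_nsmul_sub hA A 2 1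
    rw [two_nsmul, one_nsmul] at h1
    have h2 := (NNRat.cast_le (K := ℝ)).2 h1
    push_cast at h2
    refine h2.trans (mul_le_mul_of_nonneg_right ?_ hAc.le)
    apply pow_le_pow_left₀ (by positivity)
    rw [div_le_iff₀ hAc]
    exact h
  -- double counting
  have hdc : ∑ a ∈ Fintype.piFinset (fun _ : Fin M => A), ((bad A η a).card : ℝ) ≤
      (η / 2) * A.card * (A.card : ℝ) ^ M := by
    have h1 : ∑ a ∈ Fintype.piFinset (fun _ : Fin M => A), ((bad A η a).card : ℝ) =
        ∑ y ∈ A + A - A, (((Fintype.piFinset fun _ : Fin M => A).filter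
          fun a => η < |WW A a y - hh A y|).card : ℝ) := by
      unfold bad
      simp_rw [Finset.card_filter]
      push_cast
      rw [Finset.sum_comm]
    rw [h1]
    calc ∑ y ∈ A + A - A, (((Fintype.piFinset fun _ : Fin M => A).filter
          fun a => η < |WW A a y - hh A y|).card : ℝ) ≤
          ∑ y ∈ A + A - A, 2 * ((A.card : ℝ) ^ M * Real.exp (-(η ^ 2 * M / 2))) :=
            Finset.sum_le_sum fun y _ => bad_y A hA M hM η hη0.le y
      _ = ((A + A - A).card : ℝ) * (2 * ((A.card : ℝ) ^ M * Real.exp (-(η ^ 2 * M / 2)))) := by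
            rw [Finset.sum_const, nsmul_eq_mul]
      _ ≤ (K ^ 3 * A.card) * (2 * ((A.card : ℝ) ^ M * Real.exp (-(η ^ 2 * M / 2)))) :=
            mul_le_mul_of_nonneg_right hY (by positivity)
      _ = (2 * K ^ 3 * Real.exp (-(η ^ 2 * M / 2))) * A.card * (A.card : ℝ) ^ M := by ring
      _ ≤ _ := by
            apply mul_le_mul_of_nonneg_right _ (by positivity)
            apply mul_le_mul_of_nonneg_right _ hAc.le
            have h2 : η ^ 2 * M / 2 = M / (3200 * (k : ℝ) ^ 2) := by
              rw [hη]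
              field_simp
              norm_num
            rw [h2, Real.exp_neg, ← div_eq_mul_inv, div_le_iff₀ (Real.exp_pos _)]
            have h3 : η / 2 * Real.exp (M / (3200 * (k : ℝ) ^ 2)) ≥ η / 2 * (160 * (k : ℝ) * K ^ 3) :=
              mul_le_mul_of_nonneg_left hMk (by positivity)
            have h4 : η / 2 * (160 * (k : ℝ) * K ^ 3) = 2 * K ^ 3 := by
              rw [hη]
              field_simp
              norm_num
            linarith
  -- Markov
  have hmk : (((Fintype.piFinset fun _ : Fin M => A).filter fun a => ¬ (((bad A η a).card : ℝ) ≤ η * A.card)).card : ℝ) *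
      (η * A.card) ≤ ∑ a ∈ Fintype.piFinset (fun _ : Fin M => A), ((bad A η a).card : ℝ) := by
    rw [← nsmul_eq_mul, ← Finset.sum_const]
    refine le_trans (Finset.sum_le_sum (g := fun a => ((bad A η a).card : ℝ)) fun a ha => ?_)
      (Finset.sum_le_sum_of_subset_of_nonneg (Finset.filter_subset _ _) fun _ _ _ => by positivity)
    rw [Finset.mem_filter, not_le] at ha
    exact ha.2.le
  have h5 : (((Fintype.piFinset fun _ : Fin M => A).filter fun a => ¬ (((bad A η a).card : ℝ) ≤ η * A.card)).card : ℝ) ≤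
      (A.card : ℝ) ^ M / 2 := by
    have h6 := hmk.trans hdc
    have h7 : η / 2 * A.card * (A.card : ℝ) ^ M = ((A.card : ℝ) ^ M / 2) * (η * A.card) := by ring
    rw [h7] at h6
    exact le_of_mul_le_mul_right h6 (by positivity)
  have h8 := Finset.card_filter_add_card_filter_not (s := Fintype.piFinset fun _ : Fin M => A)
    (fun a => ((bad A η a).card : ℝ) ≤ η * A.card)
  have h9 : ((Fintype.piFinset fun _ : Fin M => A).card : ℝ) = (A.card : ℝ) ^ M := by
    rw [Fintype.card_piFinset]
    simp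
  rw [← h8] at h9
  push_cast at h9
  linarith

/-- the popular translate -/
theorem popular (A : Finset G) (hA : A.Nonempty) (K : ℝ) (hK : 1 ≤ K) (h : ((A - A).card : ℝ) ≤ K * A.card)
    (M : ℕ) (S : Finset (Fin M → G)) (hS : S ⊆ Fintype.piFinset fun _ : Fin M => A)
    (hSc : (A.card : ℝ) ^ M / 2 ≤ S.card) :
    ∃ w : Fin M → G, (A.card : ℝ) ≤ 2 * K ^ M * ((A.filter fun x => (fun j => w j + x) ∈ S).card : ℝ) := by
  have hAc : (0 : ℝ) < A.card := by exact_mod_cast hA.card_pos
  by_contra hcon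
  push Not at hcon
  have h1 : ((S ×ˢ A).card : ℝ) ≤ ∑ w ∈ Fintype.piFinset (fun _ : Fin M => A - A),
      ((A.filter fun x => (fun j => w j + x) ∈ S).card : ℝ) := by
    have h2 : ∀ p ∈ S ×ˢ A, (fun j => p.1 j - p.2) ∈ Fintype.piFinset (fun _ : Fin M => A - A) := by
      intro p hp
      rw [Finset.mem_product] at hp
      rw [Fintype.mem_piFinset]
      intro j
      exact Finset.sub_mem_sub (Fintype.mem_piFinset.1 (hS hp.1) j) hp.2
    rw [Finset.card_eq_sum_card_fiberwise h2]
    push_cast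
    refine Finset.sum_le_sum fun w _ => ?_
    have h3 : ((S ×ˢ A).filter fun p => (fun j => p.1 j - p.2) = w).card ≤
        (A.filter fun x => (fun j => w j + x) ∈ S).card := by
      apply Finset.card_le_card_of_injOn (fun p => p.2)
      · intro p hp
        rw [Finset.mem_coe, Finset.mem_filter, Finset.mem_product] at hp
        rw [Finset.mem_coe, Finset.mem_filter]
        refine ⟨hp.1.2, ?_⟩
        rw [← hp.2]
        simpa using hp.1.1
      · intro p hp q hq hpq
        rw [Finset.mem_coe, Finset.mem_filter, Finset.mem_product] at hp hq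
        have h4 : p.2 = q.2 := hpq
        refine Prod.ext ?_ h4
        funext j
        have h5 := congrFun (hp.2.trans hq.2.symm) j
        change p.1 j - p.2 = q.1 j - q.2 at h5
        rw [h4] at h5
        exact sub_left_injective h5
    exact_mod_cast h3
  have h6 : ∑ w ∈ Fintype.piFinset (fun _ : Fin M => A - A),
      ((A.filter fun x => (fun j => w j + x) ∈ S).card : ℝ) <
      ∑ w ∈ Fintype.piFinset (fun _ : Fin M => A - A), (A.card : ℝ) / (2 * K ^ M) := by
    apply Finset.sum_lt_sum_of_nonempty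
    · obtain ⟨a, ha⟩ := hA
      exact ⟨fun _ => a - a, Fintype.mem_piFinset.2 fun _ => Finset.sub_mem_sub ha ha⟩
    · intro w _
      rw [lt_div_iff₀ (by positivity), mul_comm]
      exact hcon w
  rw [Finset.sum_const, nsmul_eq_mul, Fintype.card_piFinset, Finset.prod_const, Finset.card_univ,
    Fintype.card_fin] at h6
  push_cast at h6
  have h7 : ((A - A).card : ℝ) ^ M * ((A.card : ℝ) / (2 * K ^ M)) ≤ (A.card : ℝ) ^ M / 2 * A.card := by
    calc ((A - A).card : ℝ) ^ M * ((A.card : ℝ) / (2 * K ^ M)) ≤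
        (K * A.card) ^ M * ((A.card : ℝ) / (2 * K ^ M)) :=
          mul_le_mul_of_nonneg_right (pow_le_pow_left₀ (by positivity) h _) (by positivity)
      _ = _ := by
          rw [mul_pow]
          field_simp
  have h8 : (A.card : ℝ) ^ M / 2 * A.card ≤ ((S ×ˢ A).card : ℝ) := by
    rw [Finset.card_product]
    push_cast
    exact mul_le_mul_of_nonneg_right hSc hAc.le
  linarith

omit [DecidableEq G] in
theorem WW_shift [DecidableEq G] (A : Finset G) {M : ℕ} (w : Fin M → G) (x y : G) :
    WW A (fun j => w j + x) y = WW A w (y - x) := by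
  unfold WW
  congr 3
  refine Finset.filter_congr fun j _ => ?_
  have : y - (w j + x) = y - x - w j := by abel
  rw [this]

/-- Croot–Sisask. -/
theorem sisask (A : Finset G) (hA : A.Nonempty) (K : ℝ) (hK : 1 ≤ K) (h : ((A - A).card : ℝ) ≤ K * A.card)
    (k : ℕ) (hk : 1 ≤ k) (M : ℕ)
    (hMk : 160 * (k : ℝ) * K ^ 3 ≤ Real.exp (M / (3200 * (k : ℝ) ^ 2))) :
    ∃ X : Finset G, X.Nonempty ∧ (A.card : ℝ) ≤ 2 * K ^ M * X.card ∧
      ∀ x x' : Fin k → G, (∀ i, x i ∈ X) → (∀ i, x' i ∈ X) →
      (9 / 10 : ℝ) * (A.card : ℝ) ^ 2 ≤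
        (((A ×ˢ A).filter fun p => p.1 + ∑ i, (x i - x' i) - p.2 ∈ A - A).card : ℝ) := by
  have hAc : (0 : ℝ) < A.card := by exact_mod_cast hA.card_pos
  have hkr : (0 : ℝ) < k := by exact_mod_cast hk
  have hk1 : (1 : ℝ) ≤ k := by exact_mod_cast hk
  have hM : 0 < M := by
    rcases Nat.eq_zero_or_pos M with h0 | h0
    · exfalso
      rw [h0] at hMk
      simp only [Nat.cast_zero, zero_div, Real.exp_zero] at hMk
      have : (1 : ℝ) ≤ k * K ^ 3 := by
        have h1 : (1 : ℝ) ≤ K ^ 3 := one_le_pow₀ hK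
        nlinarith
      nlinarith
    · exact h0
  have hgood := good_many A hA K hK h k hk M hM hMk
  obtain ⟨η, hη⟩ : ∃ η : ℝ, η = 1 / (40 * (k : ℝ)) := ⟨_, rfl⟩
  have hη0 : 0 < η := by rw [hη]; positivity
  rw [← hη] at hgood
  obtain ⟨w, hw⟩ := popular A hA K hK h M _ (Finset.filter_subset _ _) hgood
  obtain ⟨X, hX⟩ : ∃ X : Finset G, X = A.filter fun x => (fun j => w j + x) ∈
    (Fintype.piFinset fun _ : Fin M => A).filter fun a => ((bad A η a).card : ℝ) ≤ η * A.card := ⟨_, rfl⟩
  rw [← hX] at hw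
  have hXne : X.Nonempty := by
    rw [Finset.nonempty_iff_ne_empty]
    intro h0
    rw [h0] at hw
    simp only [Finset.card_empty, Nat.cast_zero, mul_zero] at hw
    linarith
  refine ⟨X, hXne, hw, ?_⟩
  have hstep : ∀ x ∈ X, ∀ x' ∈ X, ∃ E : Finset G, (E.card : ℝ) ≤ 2 * η * A.card ∧
      ∀ y ∉ E, |hh A (y + (x - x')) - hh A y| ≤ 2 * η := by
    intro x hx x' hx'
    rw [hX, Finset.mem_filter, Finset.mem_filter, Fintype.mem_piFinset] at hx hx'
    refine ⟨(bad A η (fun j => w j + x)).image (fun y => y - (x - x')) ∪ bad A η (fun j => w j + x'), ?_, ?_⟩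
    · have h1 : (((bad A η (fun j => w j + x)).image (fun y => y - (x - x')) ∪
          bad A η (fun j => w j + x')).card : ℝ) ≤ (bad A η (fun j => w j + x)).card +
          (bad A η (fun j => w j + x')).card := by
        have := (Finset.card_union_le ((bad A η (fun j => w j + x)).image (fun y => y - (x - x')))
          (bad A η (fun j => w j + x'))).trans (Nat.add_le_add_right Finset.card_image_le _)
        exact_mod_cast this
      linarith [hx.2.2, hx'.2.2]
    · intro y hy
      rw [Finset.mem_union, not_or] at hy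
      have h1 : y + (x - x') ∉ bad A η (fun j => w j + x) := by
        intro hm
        apply hy.1
        rw [Finset.mem_image]
        exact ⟨_, hm, by abel⟩
      have h2 := not_bad A η hη0.le _ hx.2.1 _ h1
      have h3 := not_bad A η hη0.le _ hx'.2.1 _ hy.2
      rw [WW_shift] at h2 h3
      have h4 : y + (x - x') - x = y - x' := by abel
      rw [h4] at h2
      have h5 := abs_sub_le (hh A (y + (x - x'))) (WW A w (y - x')) (hh A y)
      rw [abs_sub_comm (hh A (y + (x - x'))) (WW A w (y - x'))] at h5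
      linarith
  intro x x' hx hx'
  obtain ⟨E, hE, hE'⟩ := fold (hh A) X _ _ hstep k x x' hx hx'
  obtain ⟨z, hz⟩ : ∃ z : G, z = ∑ i, (x i - x' i) := ⟨_, rfl⟩
  rw [← hz] at hE' ⊢
  have hηk : (k : ℝ) * (2 * η) = 1 / 20 := by
    rw [hη]
    field_simp
    norm_num
  have hE2 : (E.card : ℝ) ≤ A.card / 20 := by
    have : (k : ℝ) * (2 * η * A.card) = A.card / 20 := by
      rw [← mul_assoc, hηk]
      ring
    linarith
  rw [hηk] at hE'
  have hone : ∀ y ∈ A, hh A y = 1 := by
    intro y hy
    unfold hh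
    rw [Finset.filter_true_of_mem, div_self hAc.ne']
    intro a ha
    exact Finset.sub_mem_sub hy ha
  have hcount : (((A ×ˢ A).filter fun p => p.1 + z - p.2 ∈ A - A).card : ℝ) =
      ∑ y ∈ A, hh A (y + z) * A.card := by
    rw [Finset.card_filter]
    push_cast
    rw [Finset.sum_product]
    refine Finset.sum_congr rfl fun y _ => ?_
    unfold hh
    rw [div_mul_cancel₀ _ hAc.ne', Finset.card_filter]
    push_cast
    rfl
  rw [hcount]
  have hnn : ∀ y, 0 ≤ hh A y := fun y => by unfold hh; positivity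
  calc (9 / 10 : ℝ) * (A.card : ℝ) ^ 2 ≤ (A.card - A.card / 20) * (19 / 20 * A.card) := by nlinarith
    _ ≤ ((A \ E).card : ℝ) * (19 / 20 * A.card) := by
        apply mul_le_mul_of_nonneg_right _ (by positivity)
        have h1 : (A.card : ℝ) ≤ (A \ E).card + E.card := by
          have := Finset.card_le_card_sdiff_add_card (s := A) (t := E)
          exact_mod_cast this
        linarith
    _ = ∑ y ∈ A \ E, (19 / 20 * (A.card : ℝ)) := by rw [Finset.sum_const, nsmul_eq_mul]
    _ ≤ ∑ y ∈ A \ E, hh A (y + z) * A.card := by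
        refine Finset.sum_le_sum fun y hy => ?_
        rw [Finset.mem_sdiff] at hy
        apply mul_le_mul_of_nonneg_right _ hAc.le
        have h1 := hE' y hy.2
        rw [hone y hy.1, abs_le] at h1
        linarith [h1.1]
    _ ≤ _ := Finset.sum_le_sum_of_subset_of_nonneg Finset.sdiff_subset fun y _ _ =>
        mul_nonneg (hnn _) hAc.le

end Pool.Agent.R539.BB
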