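import Pool.Agent.R539.BB.Stm

set_option autoImplicit false

open Finset
open scoped Pointwise ComplexConjugate

namespace Pool.Agent.R539.BB

variable {G : Type*} [AddCommGroup G] [Fintype G] [DecidableEq G]

theorem parseval (A : Finset G) : ∑ ψ : AddChar G ℂ, ‖∑ a ∈ A, ψ a‖ ^ 2 = (Fintype.card G : ℝ) * A.card := by
  have h : (∑ ψ : AddChar G ℂ, ((‖∑ a ∈ A, ψ a‖ ^ 2 : ℝ) : ℂ)) = (Fintype.card G : ℂ) * A.card := by
    have h1 : ∀ ψ : AddChar G ℂ, ((‖∑ a ∈ A, ψ a‖ ^ 2 : ℝ) : ℂ) = ∑ a ∈ A, ∑ b ∈ A, ψ (a - b) := by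
      intro ψ
      push_cast
      rw [← Complex.mul_conj', map_sum, Finset.sum_mul_sum]
      refine Finset.sum_congr rfl fun a _ => Finset.sum_congr rfl fun b _ => ?_
      rw [sub_eq_add_neg, AddChar.map_add_eq_mul, AddChar.map_neg_eq_conj]
    simp_rw [h1]
    rw [Finset.sum_comm]
    simp_rw [Finset.sum_comm (s := (univ : Finset (AddChar G ℂ)))]
    have h2 : ∀ a ∈ A, ∑ b ∈ A, ∑ ψ : AddChar G ℂ, ψ (a - b) = (Fintype.card G : ℂ) := by
      intro a ha
      simp_rw [AddChar.sum_apply_eq_ite, sub_eq_zero]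
      rw [Finset.sum_ite_eq, if_pos ha]
    rw [Finset.sum_congr rfl h2, Finset.sum_const, nsmul_eq_mul, mul_comm]
  exact_mod_cast h

/-- The quadruples (points of `X`, points of `X`, two points of `A`). -/
def TT (A X : Finset G) (k : ℕ) : Finset ((Fin k → G) × (Fin k → G) × (G × G)) :=
  (Fintype.piFinset fun _ => X) ×ˢ (Fintype.piFinset fun _ => X) ×ˢ (A ×ˢ A)

def sh {k : ℕ} (t : (Fin k → G) × (Fin k → G) × (G × G)) : G :=
  t.2.2.1 + ∑ i, (t.1 i - t.2.1 i) - t.2.2.2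

omit [AddCommGroup G] [Fintype G] [DecidableEq G] in
theorem card_TT (A X : Finset G) (k : ℕ) : (TT A X k).card = X.card ^ k * (X.card ^ k * (A.card * A.card)) := by
  unfold TT
  rw [Finset.card_product, Finset.card_product, Finset.card_product, Fintype.card_piFinset]
  simp

omit [Fintype G] [DecidableEq G] in
theorem map_sum_char {ι : Type*} (s : Finset ι) (ψ : AddChar G ℂ) (f : ι → G) :
    ψ (∑ i ∈ s, f i) = ∏ i ∈ s, ψ (f i) := by
  classical
  induction s using Finset.induction_on with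
  | empty => simp
  | insert a s ha ih => rw [Finset.sum_insert ha, Finset.prod_insert ha, AddChar.map_add_eq_mul, ih]

omit [Fintype G] [DecidableEq G] in
theorem pow_char {k : ℕ} (X : Finset G) (ψ : AddChar G ℂ) :
    ∑ x ∈ Fintype.piFinset (fun _ : Fin k => X), ∏ i, ψ (x i) = (∑ x ∈ X, ψ x) ^ k := by
  rw [← Finset.prod_univ_sum]
  simp

theorem sum_TT (A X : Finset G) (k : ℕ) (ψ : AddChar G ℂ) :
    ‖∑ t ∈ TT A X k, ψ (sh t)‖ = ‖∑ x ∈ X, ψ x‖ ^ (2 * k) * ‖∑ a ∈ A, ψ a‖ ^ 2 := by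
  have h1 : ∀ t : (Fin k → G) × (Fin k → G) × (G × G), ψ (sh t) =
      (∏ i, ψ (t.1 i)) * (conj (∏ i, ψ (t.2.1 i)) * (ψ t.2.2.1 * conj (ψ t.2.2.2))) := by
    intro t
    unfold sh
    rw [sub_eq_add_neg, AddChar.map_add_eq_mul, AddChar.map_add_eq_mul, AddChar.map_neg_eq_conj,
      Finset.sum_sub_distrib, sub_eq_add_neg, AddChar.map_add_eq_mul, AddChar.map_neg_eq_conj,
      map_sum_char, map_sum_char]
    ring
  simp_rw [h1]
  have h2 : ∑ t ∈ TT A X k, (∏ i, ψ (t.1 i)) * (conj (∏ i, ψ (t.2.1 i)) * (ψ t.2.2.1 * conj (ψ t.2.2.2))) =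
      (∑ x ∈ X, ψ x) ^ k * (conj ((∑ x ∈ X, ψ x) ^ k) * ((∑ a ∈ A, ψ a) * conj (∑ a ∈ A, ψ a))) := by
    unfold TT
    rw [Finset.sum_product, ← pow_char (k := k) X ψ, Finset.sum_mul]
    refine Finset.sum_congr rfl fun x _ => ?_
    rw [Finset.sum_product, map_sum, Finset.sum_mul, Finset.mul_sum]
    refine Finset.sum_congr rfl fun y _ => ?_
    rw [Finset.sum_product, map_sum, Finset.sum_mul_sum, Finset.mul_sum, Finset.mul_sum]
    refine Finset.sum_congr rfl fun a _ => ?_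
    rw [Finset.mul_sum, Finset.mul_sum]
  rw [h2]
  rw [norm_mul, norm_mul, norm_mul, RCLike.norm_conj, RCLike.norm_conj, norm_pow]
  ring

theorem ind_char (B : Finset G) (y : G) : ((if y ∈ B then 1 else 0 : ℝ) : ℂ) * (Fintype.card G : ℂ) =
    ∑ ψ : AddChar G ℂ, (∑ b ∈ B, ψ (-b)) * ψ y := by
  simp_rw [Finset.sum_mul, ← AddChar.map_add_eq_mul]
  rw [Finset.sum_comm]
  simp_rw [AddChar.sum_apply_eq_ite]
  have h : ∀ b, (-b + y = 0) = (y = b) := by
    intro b
    rw [neg_add_eq_zero]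
    exact propext eq_comm
  simp_rw [h]
  rw [Finset.sum_ite_eq]
  split_ifs <;> simp

/-- the number of points of `TT` whose shift by `z` is in `B` -/
theorem count_char (B A X : Finset G) (k : ℕ) (z : G) :
    ((((TT A X k).filter fun t => sh t + z ∈ B).card : ℝ) : ℂ) * (Fintype.card G : ℂ) =
      ∑ ψ : AddChar G ℂ, (∑ b ∈ B, ψ (-b)) * (ψ z * ∑ t ∈ TT A X k, ψ (sh t)) := by
  have h1 : ((((TT A X k).filter fun t => sh t + z ∈ B).card : ℝ) : ℂ) =
      ∑ t ∈ TT A X k, ((if sh t + z ∈ B then 1 else 0 : ℝ) : ℂ) := by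
    rw [Finset.card_filter]
    push_cast
    refine Finset.sum_congr rfl fun t _ => ?_
    split_ifs <;> simp
  have h2 : ∀ t ∈ TT A X k, ((if sh t + z ∈ B then 1 else 0 : ℝ) : ℂ) * (Fintype.card G : ℂ) =
      ∑ ψ : AddChar G ℂ, (∑ b ∈ B, ψ (-b)) * ψ (sh t + z) := fun t _ => ind_char B (sh t + z)
  rw [h1, Finset.sum_mul, Finset.sum_congr rfl h2]
  rw [Finset.sum_comm]
  refine Finset.sum_congr rfl fun ψ _ => ?_
  rw [← Finset.mul_sum]
  congr 1
  rw [Finset.mul_sum]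
  refine Finset.sum_congr rfl fun t _ => ?_
  rw [AddChar.map_add_eq_mul, mul_comm]

theorem fourier (A X : Finset G) (hA : A.Nonempty) (hX : X.Nonempty) (K : ℝ) (hK : 1 ≤ K)
    (h : ((A - A).card : ℝ) ≤ K * A.card) (k : ℕ) (hk : 20 * K ≤ 4 ^ k)
    (hS : ∀ x x' : Fin k → G, (∀ i, x i ∈ X) → (∀ i, x' i ∈ X) →
      (9 / 10 : ℝ) * (A.card : ℝ) ^ 2 ≤
        (((A ×ˢ A).filter fun p => p.1 + ∑ i, (x i - x' i) - p.2 ∈ A - A).card : ℝ))
    (z : G) (hz : ∀ ψ : AddChar G ℂ, (X.card : ℝ) / 2 < ‖∑ x ∈ X, ψ x‖ → ‖ψ z - 1‖ ≤ 1 / (10 * K)) :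
    ∃ a₁ ∈ A, ∃ a₂ ∈ A, ∃ a₃ ∈ A, ∃ a₄ ∈ A, z = a₁ + a₂ - a₃ - a₄ := by
  classical
  have hN : (0 : ℝ) < Fintype.card G := by
    have : Nonempty G := ⟨z⟩
    exact_mod_cast Fintype.card_pos
  have hAc : (0 : ℝ) < A.card := by exact_mod_cast hA.card_pos
  have hXc : (0 : ℝ) < X.card := by exact_mod_cast hX.card_pos
  obtain ⟨T, hT⟩ : ∃ T : ℝ, T = (X.card : ℝ) ^ (2 * k) := ⟨_, rfl⟩
  have hT0 : 0 < T := by rw [hT]; positivity
  -- S 0
  have hS0 : (9 / 10 : ℝ) * (A.card : ℝ) ^ 2 * T ≤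
      (((TT A X k).filter fun t => sh t + 0 ∈ A - A).card : ℝ) := by
    have h1 : (((TT A X k).filter fun t => sh t + 0 ∈ A - A).card : ℝ) =
        ∑ x ∈ Fintype.piFinset (fun _ : Fin k => X), ∑ x' ∈ Fintype.piFinset (fun _ : Fin k => X),
          (((A ×ˢ A).filter fun p => p.1 + ∑ i, (x i - x' i) - p.2 ∈ A - A).card : ℝ) := by
      rw [Finset.card_filter]
      unfold TT sh
      push_cast
      rw [Finset.sum_product]
      refine Finset.sum_congr rfl fun x _ => ?_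
      rw [Finset.sum_product]
      refine Finset.sum_congr rfl fun x' _ => ?_
      rw [Finset.card_filter]
      push_cast
      refine Finset.sum_congr rfl fun p _ => ?_
      rw [add_zero]
    rw [h1]
    have h2 : ∑ x ∈ Fintype.piFinset (fun _ : Fin k => X), ∑ x' ∈ Fintype.piFinset (fun _ : Fin k => X),
        ((9 / 10 : ℝ) * (A.card : ℝ) ^ 2) ≤
        ∑ x ∈ Fintype.piFinset (fun _ : Fin k => X), ∑ x' ∈ Fintype.piFinset (fun _ : Fin k => X),
          (((A ×ˢ A).filter fun p => p.1 + ∑ i, (x i - x' i) - p.2 ∈ A - A).card : ℝ) := by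
      refine Finset.sum_le_sum fun x hx => Finset.sum_le_sum fun x' hx' => ?_
      rw [Fintype.mem_piFinset] at hx hx'
      exact hS x x' hx hx'
    refine le_trans (le_of_eq ?_) h2
    rw [Finset.sum_const, Finset.sum_const, Fintype.card_piFinset, hT]
    simp only [Finset.prod_const, Finset.card_univ, Fintype.card_fin, nsmul_eq_mul]
    push_cast
    ring
  -- the difference
  have hdiff : |(((TT A X k).filter fun t => sh t + z ∈ A - A).card : ℝ) -
      (((TT A X k).filter fun t => sh t + 0 ∈ A - A).card : ℝ)| ≤ (A.card : ℝ) ^ 2 * T / 10 := by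
    have h1 := count_char (A - A) A X k z
    have h2 := count_char (A - A) A X k 0
    obtain ⟨u, hu⟩ : ∃ u : ℝ, u = (((TT A X k).filter fun t => sh t + z ∈ A - A).card : ℝ) -
      (((TT A X k).filter fun t => sh t + 0 ∈ A - A).card : ℝ) := ⟨_, rfl⟩
    rw [← hu]
    have h3 : (u : ℂ) * (Fintype.card G : ℂ) = ∑ ψ : AddChar G ℂ,
        (∑ b ∈ A - A, ψ (-b)) * ((ψ z - 1) * ∑ t ∈ TT A X k, ψ (sh t)) := by
      rw [hu]
      push_cast
      push_cast at h1 h2
      rw [sub_mul, h1, h2, ← Finset.sum_sub_distrib]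
      refine Finset.sum_congr rfl fun ψ _ => ?_
      rw [AddChar.map_zero_eq_one]
      ring
    have h4 : |u| * (Fintype.card G : ℝ) ≤ ∑ ψ : AddChar G ℂ,
        (K * A.card) * ((T / (10 * K)) * ‖∑ a ∈ A, ψ a‖ ^ 2) := by
      have h5 : |u| * (Fintype.card G : ℝ) = ‖(u : ℂ) * (Fintype.card G : ℂ)‖ := by
        rw [norm_mul, Complex.norm_real, Real.norm_eq_abs, Complex.norm_natCast]
      rw [h5, h3]
      refine (norm_sum_le _ _).trans (Finset.sum_le_sum fun ψ _ => ?_)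
      rw [norm_mul, norm_mul, sum_TT]
      have h6 : ‖∑ b ∈ A - A, ψ (-b)‖ ≤ K * A.card := by
        refine (norm_sum_le _ _).trans (le_trans (le_of_eq ?_) h)
        have : ∀ b ∈ A - A, ‖ψ (-b)‖ = 1 := fun b _ => AddChar.norm_apply ψ _
        rw [Finset.sum_congr rfl this]
        simp
      have h7 : ‖ψ z - 1‖ * ‖∑ x ∈ X, ψ x‖ ^ (2 * k) ≤ T / (10 * K) := by
        have hsum : ‖∑ x ∈ X, ψ x‖ ≤ X.card := by
          refine (norm_sum_le _ _).trans (le_of_eq ?_)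
          have : ∀ b ∈ X, ‖ψ b‖ = 1 := fun b _ => AddChar.norm_apply ψ _
          rw [Finset.sum_congr rfl this]
          simp
        rcases lt_or_ge ((X.card : ℝ) / 2) ‖∑ x ∈ X, ψ x‖ with h8 | h8
        · have h9 := hz ψ h8
          have h10 : ‖∑ x ∈ X, ψ x‖ ^ (2 * k) ≤ T := by
            rw [hT]
            exact pow_le_pow_left₀ (norm_nonneg _) hsum _
          calc ‖ψ z - 1‖ * ‖∑ x ∈ X, ψ x‖ ^ (2 * k) ≤ (1 / (10 * K)) * T :=
                mul_le_mul h9 h10 (by positivity) (by positivity)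
            _ = T / (10 * K) := by ring
        · have h9 : ‖ψ z - 1‖ ≤ 2 := by
            refine (norm_sub_le _ _).trans ?_
            rw [AddChar.norm_apply, norm_one]
            norm_num
          have h10 : ‖∑ x ∈ X, ψ x‖ ^ (2 * k) ≤ T / (20 * K) := by
            calc ‖∑ x ∈ X, ψ x‖ ^ (2 * k) ≤ ((X.card : ℝ) / 2) ^ (2 * k) :=
                  pow_le_pow_left₀ (norm_nonneg _) h8 _
              _ = T / 4 ^ k := by
                  rw [hT, div_pow, pow_mul (2 : ℝ) 2 k]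
                  norm_num
              _ ≤ T / (20 * K) := by
                  apply div_le_div_of_nonneg_left hT0.le (by positivity) hk
          calc ‖ψ z - 1‖ * ‖∑ x ∈ X, ψ x‖ ^ (2 * k) ≤ 2 * (T / (20 * K)) :=
                mul_le_mul h9 h10 (by positivity) (by norm_num)
            _ = T / (10 * K) := by field_simp; norm_num
      calc ‖∑ b ∈ A - A, ψ (-b)‖ * (‖ψ z - 1‖ * (‖∑ x ∈ X, ψ x‖ ^ (2 * k) * ‖∑ a ∈ A, ψ a‖ ^ 2)) =
            ‖∑ b ∈ A - A, ψ (-b)‖ * ((‖ψ z - 1‖ * ‖∑ x ∈ X, ψ x‖ ^ (2 * k)) * ‖∑ a ∈ A, ψ a‖ ^ 2) := by ring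
        _ ≤ _ := by
            apply mul_le_mul h6 _ (by positivity) (by positivity)
            exact mul_le_mul_of_nonneg_right h7 (by positivity)
    rw [← Finset.mul_sum, ← Finset.mul_sum, parseval] at h4
    have h8 : K * A.card * (T / (10 * K) * ((Fintype.card G : ℝ) * A.card)) =
        ((A.card : ℝ) ^ 2 * T / 10) * (Fintype.card G : ℝ) := by
      field_simp
    rw [h8] at h4
    exact le_of_mul_le_mul_right h4 hN
  -- conclusion
  have hcard : ((TT A X k).card : ℝ) = (A.card : ℝ) ^ 2 * T := by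
    rw [card_TT, hT]
    push_cast
    ring
  by_contra hcon
  have hdisj : Disjoint ((TT A X k).filter fun t => sh t + z ∈ A - A)
      ((TT A X k).filter fun t => sh t + 0 ∈ A - A) := by
    rw [Finset.disjoint_left]
    intro t ht ht'
    rw [Finset.mem_filter] at ht ht'
    apply hcon
    obtain ⟨a₁, h1, a₃, h3, h13⟩ := Finset.mem_sub.1 ht.2
    obtain ⟨a₄, h4, a₂, h2, h24⟩ := Finset.mem_sub.1 ht'.2
    refine ⟨a₁, h1, a₂, h2, a₃, h3, a₄, h4, ?_⟩
    rw [add_zero] at h24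
    have : z = (sh t + z) - sh t := by abel
    rw [this, ← h13, ← h24]
    abel
  have hle : (((TT A X k).filter fun t => sh t + z ∈ A - A).card : ℝ) +
      (((TT A X k).filter fun t => sh t + 0 ∈ A - A).card : ℝ) ≤ (TT A X k).card := by
    rw [← Nat.cast_add, ← Finset.card_union_of_disjoint hdisj]
    exact_mod_cast Finset.card_le_card (Finset.union_subset (Finset.filter_subset _ _) (Finset.filter_subset _ _))
  rw [hcard] at hle
  have h9 := abs_le.1 hdiff
  have h10 : 0 < (A.card : ℝ) ^ 2 * T := by positivity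
  nlinarith [h9.1, hS0, hle]

end Pool.Agent.R539.BB
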