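import Pool.Agent.R539.BB.P1
import Pool.Agent.R539.BB.P2
import Pool.Agent.R539.BB.P3

set_option autoImplicit false

open Finset
open scoped Pointwise

namespace Pool.Agent.R539.BB

theorem gen : GenStm := by
  intro G _ _ _ A K hA hK h
  have hAc : (0 : ℝ) < A.card := by exact_mod_cast hA.card_pos
  have hK0 : (0 : ℝ) < K := by linarith
  obtain ⟨κ, hκ⟩ : ∃ κ : ℝ, κ = Real.log (20 * K) := ⟨_, rfl⟩
  have hexp : Real.exp κ = 20 * K := by rw [hκ]; exact Real.exp_log (by positivity)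
  have hκ1 : 1 ≤ κ := by
    have h1 : Real.exp 1 ≤ Real.exp κ := by
      rw [hexp]
      have := Real.exp_one_lt_d9
      linarith
    exact Real.exp_le_exp.1 h1
  rw [← hκ]
  obtain ⟨k, hk⟩ : ∃ k : ℕ, k = ⌈κ⌉₊ := ⟨_, rfl⟩
  have hkκ : κ ≤ k := by rw [hk]; exact Nat.le_ceil _
  have hkκ2 : (k : ℝ) ≤ 2 * κ := by
    have : (k : ℝ) < κ + 1 := by rw [hk]; exact Nat.ceil_lt_add_one (by linarith)
    linarith
  have hk1 : 1 ≤ k := by
    have : (1 : ℝ) ≤ k := by linarith
    exact_mod_cast this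
  have hk0 : (0 : ℝ) < k := by linarith
  have hk4 : 20 * K ≤ 4 ^ k := by
    rw [← hexp]
    calc Real.exp κ ≤ Real.exp k := Real.exp_le_exp.2 hkκ
      _ = Real.exp 1 ^ k := by rw [← Real.exp_nat_mul, mul_one]
      _ ≤ 4 ^ k := by
          apply pow_le_pow_left₀ (Real.exp_pos 1).le
          have := Real.exp_one_lt_d9
          linarith
  obtain ⟨M, hM⟩ : ∃ M : ℕ, M = ⌈3200 * (k : ℝ) ^ 2 * Real.log (160 * (k : ℝ) * K ^ 3)⌉₊ := ⟨_, rfl⟩
  have hlogK0 : 0 ≤ Real.log K := Real.log_nonneg hK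
  have hlogK : Real.log K ≤ κ := by
    rw [hκ]
    exact Real.log_le_log hK0 (by linarith)
  have hlog : Real.log (160 * (k : ℝ) * K ^ 3) ≤ 7 * κ := by
    rw [Real.log_mul (by positivity) (by positivity), Real.log_mul (by norm_num) hk0.ne', Real.log_pow]
    have h1 : Real.log 160 ≤ 2 * κ := by
      rw [← Real.log_exp (2 * κ)]
      apply Real.log_le_log (by norm_num)
      rw [two_mul, Real.exp_add, hexp]
      nlinarith
    have h2 : Real.log k ≤ 2 * κ := by
      have := Real.log_le_sub_one_of_pos hk0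
      linarith
    push_cast
    linarith
  have hlog0 : 0 ≤ Real.log (160 * (k : ℝ) * K ^ 3) := by
    apply Real.log_nonneg
    have h1 : (1 : ℝ) ≤ K ^ 3 := one_le_pow₀ hK
    have h2 : (1 : ℝ) ≤ k := by exact_mod_cast hk1
    nlinarith
  have hMκ : (M : ℝ) ≤ 89601 * κ ^ 3 := by
    have h1 : (M : ℝ) < 3200 * (k : ℝ) ^ 2 * Real.log (160 * (k : ℝ) * K ^ 3) + 1 := by
      rw [hM]; exact Nat.ceil_lt_add_one (by positivity)
    have h2 : 3200 * (k : ℝ) ^ 2 * Real.log (160 * (k : ℝ) * K ^ 3) ≤ 3200 * (2 * κ) ^ 2 * (7 * κ) := by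
      apply mul_le_mul _ hlog hlog0 (by positivity)
      apply mul_le_mul_of_nonneg_left _ (by norm_num)
      exact pow_le_pow_left₀ hk0.le hkκ2 2
    have h3 : 3200 * (2 * κ) ^ 2 * (7 * κ) = 89600 * κ ^ 3 := by ring
    have h4 : 1 ≤ κ ^ 3 := one_le_pow₀ hκ1
    linarith
  have hMk : 160 * (k : ℝ) * K ^ 3 ≤ Real.exp (M / (3200 * (k : ℝ) ^ 2)) := by
    rw [← Real.exp_log (show (0 : ℝ) < 160 * (k : ℝ) * K ^ 3 by positivity)]
    apply Real.exp_le_exp.2
    rw [le_div_iff₀ (by positivity), hM, mul_comm]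
    exact Nat.le_ceil _
  obtain ⟨X, hX, hXc, hS⟩ := sisask A hA K hK h k hk1 M hMk
  have hXcp : (0 : ℝ) < X.card := by exact_mod_cast hX.card_pos
  obtain ⟨Λ, hΛ, hΛ'⟩ := chang G X hX
  refine ⟨Λ, hΛ.trans ?_, ?_⟩
  · apply mul_le_mul_of_nonneg_left _ (by norm_num)
    have hG : (0 : ℝ) < Fintype.card G := by
      obtain ⟨a, _⟩ := hA
      have : Nonempty G := ⟨a⟩
      exact_mod_cast Fintype.card_pos
    have h1 : (Fintype.card G : ℝ) / X.card ≤ (Fintype.card G : ℝ) / A.card * (2 * K ^ M) := by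
      rw [div_mul_eq_mul_div, div_le_div_iff₀ hXcp hAc]
      calc (Fintype.card G : ℝ) * A.card ≤ (Fintype.card G : ℝ) * (2 * K ^ M * X.card) :=
            mul_le_mul_of_nonneg_left hXc hG.le
        _ = _ := by ring
    have h2 := Real.log_le_log (by positivity) h1
    rw [Real.log_mul (by positivity) (by positivity), Real.log_mul (by norm_num) (by positivity),
      Real.log_pow] at h2
    have h3 : Real.log 2 ≤ 1 := by
      have := Real.log_two_lt_d9
      linarith
    have h4 : (M : ℝ) * Real.log K ≤ 89601 * κ ^ 4 := by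
      calc (M : ℝ) * Real.log K ≤ (89601 * κ ^ 3) * κ :=
            mul_le_mul hMκ hlogK hlogK0 (by positivity)
        _ = _ := by ring
    linarith
  · intro z hz
    apply fourier A X hA hX K hK h k hk4 hS z
    intro ψ hψ
    refine (hΛ' ψ hψ z _ hz).trans ?_
    have h1 : (0 : ℝ) ≤ Λ.card := by positivity
    rw [mul_one_div, div_le_div_iff₀ (by positivity) (by positivity)]
    nlinarith

end Pool.Agent.R539.BB
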