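import Pool.Agent.R539.BB.Stm
import Pool.Agent.H217R3.AK.Bsg

/-!
# Piece P5: the final assembly in `ℤ/N`
-/

set_option autoImplicit false

open Finset
open scoped Pointwise

namespace Pool.Agent.R539.BB

/-- the energy of the statement is at most the one of the library -/
theorem energy_le {N : ℕ} (A : Finset (ZMod N)) : energy A ≤ A.addEnergy A := by
  unfold energy Finset.addEnergy
  apply Finset.card_le_card_of_injOn (fun p => ((p.1, p.2.2.1), (p.2.1, p.2.2.2)))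
  · intro p hp
    simp only [Finset.coe_filter, Finset.mem_product, Set.mem_ofPred_eq] at hp ⊢
    exact ⟨⟨⟨hp.1.1, hp.1.2.2.1⟩, hp.1.2.1, hp.1.2.2.2⟩, hp.2⟩
  · rintro ⟨a, b, c, d⟩ _ ⟨a', b', c', d'⟩ _ h
    simp only [Prod.mk.injEq] at h ⊢
    tauto

/-- the distance to the nearest integer -/
noncomputable def dst (x : ℝ) : ℝ := |x - round x|

theorem dst_int (x : ℝ) (n : ℤ) : dst (x + n) = dst x := by
  unfold dst
  rw [round_add_intCast]
  push_cast
  congr 1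
  ring

/-- the norm `‖γ x / N‖` -/
noncomputable def nrm {N : ℕ} (x : ZMod N) : ℝ := dst ((x.val : ℝ) / N)

theorem nrm_cast {N : ℕ} [NeZero N] (x : ZMod N) (k : ℤ) (h : (k : ZMod N) = x) :
    nrm x = dst ((k : ℝ) / N) := by
  have hN : (N : ℝ) ≠ 0 := Nat.cast_ne_zero.2 (NeZero.ne N)
  have h1 : ((x.val : ℤ) : ZMod N) = (k : ZMod N) := by
    rw [h]
    simp
  rw [ZMod.intCast_eq_intCast_iff_dvd_sub] at h1
  obtain ⟨c, hc⟩ := h1
  have h2 : (k : ℝ) / N = (x.val : ℝ) / N + (c : ℤ) := by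
    have h3 : (k : ℝ) - (x.val : ℝ) = N * c := by exact_mod_cast hc
    field_simp
    linarith
  unfold nrm
  rw [h2, dst_int]

theorem char_bound {N : ℕ} [NeZero N] (ψ : AddChar (ZMod N) ℂ) :
    ∃ γ : ZMod N, ∀ x : ZMod N, ‖ψ x - 1‖ ≤ 2 * Real.pi * nrm (γ * x) := by
  obtain ⟨γ, hγ⟩ := AddChar.zmodAddEquiv.surjective ψ
  refine ⟨γ, fun x => ?_⟩
  have hN : (N : ℝ) ≠ 0 := Nat.cast_ne_zero.2 (NeZero.ne N)
  have e1 : ψ x = Complex.exp (Complex.I *
      ((2 * Real.pi * (((γ.val : ℤ) * (x.val : ℤ) : ℤ) / N : ℝ) : ℝ) : ℂ)) := by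
    rw [← hγ, AddChar.zmodAddEquiv_apply]
    have h1 : (γ : ZMod N) = ((γ.val : ℤ) : ZMod N) := by simp
    have h2 : (x : ZMod N) = ((x.val : ℤ) : ZMod N) := by simp
    have h3 : AddChar.zmod N γ x = Circle.exp (2 * Real.pi * ((γ.val : ℤ) * (x.val : ℤ) / N)) := by
      conv_lhs => rw [h1, h2]
      exact AddChar.zmod_intCast _ _ _
    have h4 : (AddChar.circleEquivComplex (AddChar.zmod N γ)) x = ((AddChar.zmod N γ x : Circle) : ℂ) :=
      rfl
    rw [h4, h3, Circle.coe_exp, mul_comm]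
    push_cast
    rfl
  set t : ℝ := (((γ.val : ℤ) * (x.val : ℤ) : ℤ) / N : ℝ) with ht
  have e2 : nrm (γ * x) = dst t := by
    rw [ht]
    exact nrm_cast (γ * x) _ (by push_cast; simp)
  have e3 : Complex.exp (Complex.I * ((2 * Real.pi * t : ℝ) : ℂ)) =
      Complex.exp (Complex.I * ((2 * Real.pi * (t - round t) : ℝ) : ℂ)) := by
    rw [Complex.exp_eq_exp_iff_exists_int]
    refine ⟨round t, ?_⟩
    push_cast
    ring
  rw [e1, e3]
  refine Real.norm_exp_I_mul_ofReal_sub_one_le.trans ?_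
  rw [e2, Real.norm_eq_abs, abs_mul, abs_of_pos (by positivity : (0:ℝ) < 2 * Real.pi)]
  rfl

/-- the common part of the two statements -/
theorem common (hg : GenStm) (N : ℕ) (hN : 0 < N) (A : Finset (ZMod N)) (hA : A.Nonempty) (K : ℝ)
    (hK : 1 ≤ K) (hE : (A.card : ℝ) ^ 3 ≤ K * energy A) :
    ∃ (Γ : Finset (ZMod N)) (m : ℕ), Γ.card ≤ m ∧
      (m : ℝ) ≤ 8 * (Real.log (N / A.card) + Real.log (8 * K) + 1 +
        89601 * Real.log (20 * (2 ^ 22 * K ^ 10)) ^ 4) ∧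
      ∀ x : ZMod N, (∀ γ ∈ Γ, nrm (γ * x) ≤ 1 / (63 * (2 ^ 22 * K ^ 10) * (m + 1))) →
        x ∈ twoAMinusTwoA A := by
  classical
  have : NeZero N := ⟨hN.ne'⟩
  have hNr : (0 : ℝ) < N := by exact_mod_cast hN
  have hE' : (A.card : ℝ) ^ 3 ≤ K * (A.addEnergy A : ℕ) := by
    refine hE.trans ?_
    have : (energy A : ℝ) ≤ (A.addEnergy A : ℕ) := by exact_mod_cast energy_le A
    gcongr
  obtain ⟨B, hBA, hB, hB1, hB2⟩ := Pool.Agent.H217R3.AK.bsg A hA K (by linarith) hE'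
  have hBpos : (0 : ℝ) < B.card := by exact_mod_cast hB.card_pos
  have hApos : (0 : ℝ) < A.card := by exact_mod_cast hA.card_pos
  obtain ⟨Λ, hΛ, hΛ2⟩ := hg (ZMod N) B (2 ^ 22 * K ^ 10) hB
    (by
      have : (1 : ℝ) ≤ K ^ 10 := one_le_pow₀ hK
      nlinarith) hB2
  choose g hgb using fun ψ : AddChar (ZMod N) ℂ => char_bound ψ
  refine ⟨Λ.image g, Λ.card, Finset.card_image_le, ?_, ?_⟩
  · refine hΛ.trans ?_
    have h1 : Real.log ((Fintype.card (ZMod N) : ℝ) / B.card) ≤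
        Real.log (N / A.card) + Real.log (8 * K) := by
      rw [ZMod.card, ← Real.log_mul (by positivity) (by positivity)]
      apply Real.log_le_log (by positivity)
      rw [div_mul_eq_mul_div, div_le_div_iff₀ hBpos hApos]
      nlinarith
    linarith
  · intro x hx
    obtain ⟨a₁, h1, a₂, h2, a₃, h3, a₄, h4, h5⟩ := hΛ2 x (by
      intro l hl
      have h6 := hx (g l) (Finset.mem_image_of_mem g hl)
      refine (hgb l x).trans ?_
      have hpi : Real.pi < 3.15 := Real.pi_lt_d2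
      have hpp := Real.pi_pos
      have hnn : 0 ≤ nrm (g l * x) := abs_nonneg _
      calc 2 * Real.pi * nrm (g l * x) ≤ 6.3 * (1 / (63 * (2 ^ 22 * K ^ 10) * (Λ.card + 1))) := by
            gcongr
            linarith
        _ = 1 / (10 * (2 ^ 22 * K ^ 10) * (Λ.card + 1)) := by
            have hK0 : 0 < K := by linarith
            field_simp
            norm_num)
    exact ⟨a₁, hBA h1, a₂, hBA h2, a₃, hBA h3, a₄, hBA h4, h5⟩

theorem log_card {N : ℕ} (hN : 0 < N) (A : Finset (ZMod N)) (hA : A.Nonempty)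
    (hd : (A.card : ℝ) / (N : ℝ) ≤ 1 / 2) : 0.6931 ≤ Real.log ((N : ℝ) / (A.card : ℝ)) := by
  have hNr : (0 : ℝ) < N := by exact_mod_cast hN
  have hApos : (0 : ℝ) < A.card := by exact_mod_cast hA.card_pos
  have h1 : (2 : ℝ) ≤ (N : ℝ) / A.card := by
    rw [le_div_iff₀ hApos]
    rw [div_le_div_iff₀ hNr (by norm_num)] at hd
    linarith
  have h2 : Real.log 2 ≤ Real.log ((N : ℝ) / (A.card : ℝ)) := Real.log_le_log (by norm_num) h1
  have h3 := Real.log_two_gt_d9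
  linarith

theorem rank (hg : GenStm) : RankStm := by
  intro N hN A hA hd K hK hE
  obtain ⟨Γ, m, h1, h2, h3⟩ := common hg N hN A hA K hK hE
  have hl := log_card hN A hA hd
  obtain ⟨l, hldef⟩ : ∃ l, l = Real.log ((N : ℝ) / (A.card : ℝ)) := ⟨_, rfl⟩
  obtain ⟨u, hudef⟩ : ∃ u, u = Real.log (2 * K) := ⟨_, rfl⟩
  rw [← hldef] at hl h2 ⊢
  rw [← hudef]
  have hK0 : 0 < K := by linarith
  have hlt := Real.log_two_lt_d9
  have hgt := Real.log_two_gt_d9
  have hu2 : Real.log 2 ≤ u := by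
    rw [hudef]
    apply Real.log_le_log (by norm_num)
    linarith
  have e1 : Real.log (8 * K) = u + 2 * Real.log 2 := by
    rw [hudef, show 8 * K = (2 * K) * (2 ^ 2) by ring, Real.log_mul (by positivity) (by positivity),
      Real.log_pow]
    norm_num
  have e2 : Real.log (20 * (2 ^ 22 * K ^ 10)) ≤ 27 * u := by
    have h4 : Real.log (20 * (2 ^ 22 * K ^ 10)) ≤ Real.log ((2 * K) ^ 10 * 2 ^ 17) := by
      apply Real.log_le_log (by positivity)
      have : 0 < K ^ 10 := by positivity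
      nlinarith
    have h5 : Real.log ((2 * K) ^ 10 * 2 ^ 17) = 10 * u + 17 * Real.log 2 := by
      rw [Real.log_mul (by positivity) (by positivity), Real.log_pow, Real.log_pow, ← hudef]
      norm_num
    linarith
  have e3 : 0 ≤ Real.log (20 * (2 ^ 22 * K ^ 10)) := by
    apply Real.log_nonneg
    have : 1 ≤ K ^ 10 := one_le_pow₀ hK
    nlinarith
  have e4 : Real.log (20 * (2 ^ 22 * K ^ 10)) ^ 4 ≤ 531441 * u ^ 4 := by
    calc _ ≤ (27 * u) ^ 4 := pow_le_pow_left₀ e3 e2 4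
      _ = _ := by ring
  have e5 : u ≤ 4 * u ^ 4 := by
    have h5 : (0.6931 : ℝ) ≤ u := by linarith
    have h6 : (0.6931 : ℝ) ^ 3 ≤ u ^ 3 := pow_le_pow_left₀ (by norm_num) h5 3
    have h7 : (0.33 : ℝ) ≤ u ^ 3 := le_trans (by norm_num) h6
    have h8 : u ^ 4 = u ^ 3 * u := by ring
    rw [h8]
    nlinarith
  rw [e1] at h2
  have hm : (m : ℝ) + 1 ≤ 39 * 10 ^ 10 * (l + u ^ 4) := by
    nlinarith
  have hpos : 0 < l + u ^ 4 := by positivity
  refine ⟨Γ, ?_, ?_⟩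
  · have : (Γ.card : ℝ) ≤ m := by exact_mod_cast h1
    nlinarith
  · intro x hx
    apply h3 x
    intro γ hγ
    have h4 : nrm (γ * x) ≤ 1 / (10 ^ 21 * K ^ 10 * (l + u ^ 4)) := hx γ hγ
    refine h4.trans ?_
    apply one_div_le_one_div_of_le (by positivity)
    have hK10 : 0 < K ^ 10 := by positivity
    calc 63 * (2 ^ 22 * K ^ 10) * ((m : ℝ) + 1) ≤
        63 * (2 ^ 22 * K ^ 10) * (39 * 10 ^ 10 * (l + u ^ 4)) := by gcongr
      _ = (63 * 2 ^ 22 * (39 * 10 ^ 10)) * (K ^ 10 * (l + u ^ 4)) := by ring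
      _ ≤ 10 ^ 21 * (K ^ 10 * (l + u ^ 4)) := by
          gcongr
          norm_num
      _ = _ := by ring

/-- raising the radius -/
theorem raise_step (b : ℕ) (hb : 1 ≤ b) (y : ℝ) (q : ℕ)
    (h : ∀ i < q, dst ((b : ℝ) ^ i * y) ≤ 1 / (2 * b)) : ∀ j ≤ q, dst y ≤ 1 / (2 * (b : ℝ) ^ j) := by
  intro j
  induction j with
  | zero =>
    intro _
    unfold dst
    have := abs_sub_round y
    simpa using this
  | succ j ih =>
    intro hj
    have h1 := ih (by omega)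
    have h2 := h j (by omega)
    have hb0 : (0 : ℝ) < b := by exact_mod_cast hb
    unfold dst at h1 h2 ⊢
    set θ := y - round y with hθ
    have h3 : |(b : ℝ) ^ j * θ| ≤ 1 / 2 := by
      rw [abs_mul, abs_of_pos (by positivity)]
      calc (b : ℝ) ^ j * |θ| ≤ (b : ℝ) ^ j * (1 / (2 * (b : ℝ) ^ j)) := by gcongr
        _ = 1 / 2 := by field_simp
    set n : ℤ := round ((b : ℝ) ^ j * y) - (b : ℤ) ^ j * round y with hn
    have h4 : (b : ℝ) ^ j * y - round ((b : ℝ) ^ j * y) = (b : ℝ) ^ j * θ - n := by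
      rw [hn, hθ]
      push_cast
      ring
    have h5 : |(b : ℝ) ^ j * θ| ≤ |(b : ℝ) ^ j * θ - n| := by
      by_cases hn0 : n = 0
      · rw [hn0]
        simp
      · have h6 : (1 : ℝ) ≤ |(n : ℝ)| := by
          exact_mod_cast Int.one_le_abs hn0
        have h7 := abs_sub_abs_le_abs_sub (n : ℝ) ((b : ℝ) ^ j * θ)
        rw [abs_sub_comm] at h7
        linarith
    rw [h4] at h2
    have h8 : (b : ℝ) ^ j * |θ| ≤ 1 / (2 * b) := by
      have h9 := h5.trans h2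
      rwa [abs_mul, abs_of_pos (by positivity : (0 : ℝ) < (b : ℝ) ^ j)] at h9
    rw [pow_succ, le_div_iff₀ (by positivity)]
    rw [le_div_iff₀ (by positivity)] at h8
    linarith

theorem poly (hg : GenStm) : PolyStm := by
  classical
  intro N hN A hA hd D hD hE
  have : NeZero N := ⟨hN.ne'⟩
  have hl := log_card hN A hA hd
  obtain ⟨l, hldef⟩ : ∃ l, l = Real.log ((N : ℝ) / (A.card : ℝ)) := ⟨_, rfl⟩
  rw [← hldef] at hE hl ⊢
  obtain ⟨K, hKdef⟩ : ∃ K, K = (2 + l) ^ D := ⟨_, rfl⟩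
  rw [← hKdef] at hE
  have hK : 1 ≤ K := by
    rw [hKdef]
    exact one_le_pow₀ (by linarith)
  have hK0 : 0 < K := by linarith
  obtain ⟨Γ, m, h1, h2, h3⟩ := common hg N hN A hA K hK hE
  rw [← hldef] at h2
  obtain ⟨v, hvdef⟩ : ∃ v, v = Real.log (2 + l) := ⟨_, rfl⟩
  have hlt := Real.log_two_lt_d9
  have hgt := Real.log_two_gt_d9
  have hD1 : (1 : ℝ) ≤ D := by exact_mod_cast hD
  have hv1 : v ≤ 1 + l := by
    rw [hvdef]
    have := Real.log_le_sub_one_of_pos (show 0 < 2 + l by linarith)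
    linarith
  have hv2 : 0.99 ≤ v := by
    have h4 : Real.log ((2 + l) / Real.exp 1) = v - 1 := by
      rw [Real.log_div (by positivity) (by positivity), Real.log_exp, hvdef]
    have h5 := Real.one_sub_inv_le_log_of_pos (show 0 < (2 + l) / Real.exp 1 by positivity)
    rw [h4, inv_div] at h5
    have h6 : Real.exp 1 / (2 + l) ≤ 1.01 := by
      rw [div_le_iff₀ (by linarith)]
      have := Real.exp_one_lt_d9
      nlinarith
    linarith
  have hv4 : v ^ 4 ≤ 995 * l := by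
    have h4 : v ≤ (2 + l) ^ (1 / 4 : ℝ) / (1 / 4) := by
      rw [hvdef]
      exact Real.log_le_rpow_div (by linarith) (by norm_num)
    have h5 : v ^ 4 ≤ ((2 + l) ^ (1 / 4 : ℝ) / (1 / 4)) ^ 4 := pow_le_pow_left₀ (by linarith) h4 4
    have h6 : ((2 + l) ^ (1 / 4 : ℝ) / (1 / 4)) ^ 4 = 256 * (2 + l) := by
      have h7 : ((2 + l) ^ (1 / 4 : ℝ)) ^ 4 = 2 + l := by
        rw [← Real.rpow_natCast, ← Real.rpow_mul (by linarith)]
        norm_num
      rw [div_pow, h7]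
      ring
    rw [h6] at h5
    linarith
  have e1 : Real.log (8 * K) = 3 * Real.log 2 + D * v := by
    rw [hKdef, show (8 : ℝ) = 2 ^ 3 by norm_num, Real.log_mul (by positivity) (by positivity),
      Real.log_pow, Real.log_pow, ← hvdef]
    norm_num
  have e2 : Real.log (20 * (2 ^ 22 * K ^ 10)) ≤ 28.91 * (D * v) := by
    have h4 : Real.log (20 * (2 ^ 22 * K ^ 10)) ≤ Real.log (2 ^ 27 * K ^ 10) := by
      apply Real.log_le_log (by positivity)
      have : 0 < K ^ 10 := by positivity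
      nlinarith
    have h6 : Real.log (2 ^ 27 * K ^ 10) = 27 * Real.log 2 + 10 * (D * v) := by
      rw [Real.log_mul (by positivity) (by positivity), Real.log_pow, Real.log_pow, hKdef,
        Real.log_pow, ← hvdef]
      norm_num
    have h5 : 0.99 ≤ D * v := by nlinarith
    rw [h6] at h4
    have key : ∀ L g t : ℝ, L ≤ 27 * g + 10 * t → g < 0.6931471808 → 0.99 ≤ t → L ≤ 28.91 * t := by
      intro L g t h1 h2 h3
      linarith
    exact key _ _ _ h4 hlt h5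
  have e3 : 0 ≤ Real.log (20 * (2 ^ 22 * K ^ 10)) := by
    apply Real.log_nonneg
    have : 1 ≤ K ^ 10 := one_le_pow₀ hK
    nlinarith
  have e4 : Real.log (20 * (2 ^ 22 * K ^ 10)) ^ 4 ≤ 698600 * ((D : ℝ) ^ 4 * (995 * l)) := by
    calc _ ≤ (28.91 * (D * v)) ^ 4 := pow_le_pow_left₀ e3 e2 4
      _ = 28.91 ^ 4 * ((D : ℝ) ^ 4 * v ^ 4) := by ring
      _ ≤ 698600 * ((D : ℝ) ^ 4 * (995 * l)) := by
          gcongr
          norm_num
  have hD4 : (D : ℝ) ≤ D ^ 4 := by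
    have : (1 : ℝ) ≤ D ^ 3 := one_le_pow₀ hD1
    nlinarith
  have hm : (m : ℝ) + 1 ≤ 5 * 10 ^ 14 * ((D : ℝ) ^ 4 * l) := by
    rw [e1] at h2
    have h4 : (D : ℝ) * v ≤ D * (1 + l) := by gcongr
    have h5 : (D : ℝ) * (1 + l) ≤ D ^ 4 * (2.5 * l) := by
      have : 1 + l ≤ 2.5 * l := by linarith
      gcongr
    have h6 : l ≤ (D : ℝ) ^ 4 * l := by
      have : (1 : ℝ) ≤ D ^ 4 := one_le_pow₀ hD1
      nlinarith
    nlinarith
  -- the base
  obtain ⟨b, hbdef⟩ : ∃ b : ℕ, b = ⌈2 + l⌉₊ := ⟨_, rfl⟩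
  have hb1 : 2 + l ≤ b := by rw [hbdef]; exact Nat.le_ceil _
  have hb2 : (b : ℝ) ≤ 6 * l := by
    have : (b : ℝ) < 2 + l + 1 := by rw [hbdef]; exact Nat.ceil_lt_add_one (by linarith)
    linarith
  have hb3 : 3 ≤ b := by
    have : (2 : ℝ) < b := by linarith
    have : 2 < b := by exact_mod_cast this
    omega
  have hb3r : (3 : ℝ) ≤ b := by exact_mod_cast hb3
  have hb0 : (0 : ℝ) < b := by linarith
  obtain ⟨q, hq⟩ : ∃ q, q = 14 * D + 45 := ⟨_, rfl⟩
  refine ⟨(range q ×ˢ Γ).image (fun p => (b : ZMod N) ^ p.1 * p.2), ?_, ?_⟩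
  · have h4 : ((range q ×ˢ Γ).image (fun p => (b : ZMod N) ^ p.1 * p.2)).card ≤ q * m := by
      refine Finset.card_image_le.trans ?_
      rw [Finset.card_product, card_range]
      gcongr
    have h5 : (((range q ×ˢ Γ).image (fun p => (b : ZMod N) ^ p.1 * p.2)).card : ℝ) ≤ q * m := by
      exact_mod_cast h4
    refine h5.trans ?_
    have h6 : (q : ℝ) ≤ 59 * D := by
      rw [hq]
      push_cast
      linarith
    calc (q : ℝ) * m ≤ (59 * D) * (5 * 10 ^ 14 * ((D : ℝ) ^ 4 * l)) := by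
          gcongr
          linarith
      _ = (59 * 5 * 10 ^ 14) * ((D : ℝ) ^ 5 * l) := by ring
      _ ≤ 10 ^ 17 * ((D : ℝ) ^ 5 * l) := by
          gcongr
          norm_num
      _ = _ := by ring
  · intro x hx
    apply h3 x
    intro γ hγ
    have h4 : ∀ i < q, dst ((b : ℝ) ^ i * (((γ * x).val : ℝ) / N)) ≤ 1 / (2 * b) := by
      intro i hi
      have h5 : nrm ((b : ZMod N) ^ i * γ * x) ≤ 1 / (12 * l) :=
        hx ((b : ZMod N) ^ i * γ) (Finset.mem_image.2 ⟨(i, γ), by simp [hi, hγ], rfl⟩)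
      rw [nrm_cast ((b : ZMod N) ^ i * γ * x) ((b : ℤ) ^ i * ((γ * x).val : ℤ)) (by
        push_cast
        rw [ZMod.natCast_zmod_val, mul_assoc])] at h5
      have h6 : (b : ℝ) ^ i * (((γ * x).val : ℝ) / N) =
          (((b : ℤ) ^ i * ((γ * x).val : ℤ) : ℤ) : ℝ) / N := by
        push_cast
        ring
      rw [h6]
      refine h5.trans ?_
      apply one_div_le_one_div_of_le (by positivity)
      linarith
    have h5 := raise_step b (by omega) _ q h4 q le_rfl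
    change nrm (γ * x) ≤ _ at h5
    refine h5.trans ?_
    apply one_div_le_one_div_of_le (by positivity)
    have h6 : K ^ 10 ≤ (b : ℝ) ^ (10 * D) := by
      rw [hKdef, ← pow_mul, mul_comm D 10]
      gcongr
    obtain ⟨d, rfl⟩ : ∃ d, D = d + 1 := ⟨D - 1, by omega⟩
    have h7 : ((d + 1 : ℕ) : ℝ) ^ 4 ≤ (b : ℝ) ^ (4 * d) := by
      have h8 : ((d + 1 : ℕ) : ℝ) ≤ (b : ℝ) ^ d := by
        have h9 : d + 1 ≤ 3 ^ d := Nat.lt_pow_self (by norm_num : 1 < 3)
        calc ((d + 1 : ℕ) : ℝ) ≤ ((3 ^ d : ℕ) : ℝ) := by exact_mod_cast h9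
          _ = (3 : ℝ) ^ d := by push_cast; rfl
          _ ≤ _ := by gcongr
      calc ((d + 1 : ℕ) : ℝ) ^ 4 ≤ ((b : ℝ) ^ d) ^ 4 := by gcongr
        _ = _ := by rw [← pow_mul, mul_comm]
    have h8 : l ≤ b := by linarith
    calc 63 * (2 ^ 22 * K ^ 10) * ((m : ℝ) + 1)
        ≤ 63 * (2 ^ 22 * (b : ℝ) ^ (10 * (d + 1))) *
          (5 * 10 ^ 14 * ((b : ℝ) ^ (4 * d) * b)) := by
          gcongr
          exact hm.trans (by gcongr)
      _ = (63 * 2 ^ 22 * (5 * 10 ^ 14)) * ((b : ℝ) ^ (10 * (d + 1)) * (b : ℝ) ^ (4 * d) * b) := by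
          ring
      _ ≤ (2 * 3 ^ 48) * ((b : ℝ) ^ (10 * (d + 1)) * (b : ℝ) ^ (4 * d) * b) :=
          mul_le_mul_of_nonneg_right (by norm_num) (by positivity)
      _ ≤ (2 * (b : ℝ) ^ 48) * ((b : ℝ) ^ (10 * (d + 1)) * (b : ℝ) ^ (4 * d) * b) := by
          gcongr
      _ = 2 * (b : ℝ) ^ q := by
          rw [hq]
          ring

end Pool.Agent.R539.BB
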