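import Pool.Agent.R539.BB.P3

set_option autoImplicit false

open Finset
open scoped Pointwise ComplexConjugate

namespace Pool.Agent.R539.BB

/-- The Fourier series of the triangular wave. -/
theorem tri (x : ℝ) (h1 : -(1 / 4) ≤ x) (h2 : x ≤ 1 / 4) :
    HasSum (fun n : ℕ => 1 / (Real.pi ^ 2 * (n : ℝ) ^ 2) * (Real.cos (2 * Real.pi * n * (1 / 4 - x)) -
      Real.cos (2 * Real.pi * n * (3 / 4 - x)))) x := by
  have e1 := hasSum_one_div_nat_pow_mul_cos (k := 1) one_ne_zero (x := 1 / 4 - x)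
    ⟨by linarith, by linarith⟩
  have e2 := hasSum_one_div_nat_pow_mul_cos (k := 1) one_ne_zero (x := 3 / 4 - x)
    ⟨by linarith, by linarith⟩
  have e3 := (e1.sub e2).mul_left (1 / Real.pi ^ 2)
  have hpi : Real.pi ≠ 0 := Real.pi_ne_zero
  have hB : ∀ y : ℝ, (Polynomial.map (algebraMap ℚ ℝ) (Polynomial.bernoulli (2 * 1))).eval y =
      y ^ 2 - y + 1 / 6 := by
    intro y
    have : Polynomial.bernoulli (2 * 1) = Polynomial.X ^ 2 - Polynomial.X + Polynomial.C (1 / 6 : ℚ) := by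
      rw [Polynomial.bernoulli]
      simp only [Nat.reduceMul, Finset.sum_range_succ, Finset.range_zero, Finset.sum_empty]
      norm_num [bernoulli_two, Polynomial.monomial_one_right_eq_X_pow]
      ring
    rw [this]
    simp
  rw [hB, hB] at e3
  convert! e3 using 1
  · funext n
    rcases Nat.eq_zero_or_pos n with h0 | h0
    · subst h0
      simp
    · have hn : (n : ℝ) ≠ 0 := by exact_mod_cast h0.ne'
      field_simp
      ring_nf
  · simp only [Nat.factorial]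
    field_simp
    ring

variable {G : Type*} [AddCommGroup G]

/-- One step of Bernstein's inequality for the multiples of `z`. -/
theorem bern1 (S : Finset (AddChar G ℂ)) (w : AddChar G ℂ → ℂ) (z : G) (α : AddChar G ℂ → ℝ) (n : ℕ) (hn : 0 < n)
    (hα : ∀ ψ ∈ S, ψ z = Complex.exp (2 * Real.pi * Complex.I * (α ψ : ℂ)))
    (hα2 : ∀ ψ ∈ S, |α ψ| * n ≤ 1 / 4) (M : ℝ)
    (hM : ∀ b : G, ‖∑ ψ ∈ S, w ψ * ψ b‖ ≤ M) (b : G) :
    ‖∑ ψ ∈ S, (w ψ * (α ψ : ℂ)) * ψ b‖ ≤ M / (3 * n) := by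
  have hn0 : (0 : ℝ) < n := by exact_mod_cast hn
  have hM0 : 0 ≤ M := (norm_nonneg _).trans (hM 0)
  have hpi : (0 : ℝ) < Real.pi := Real.pi_pos
  -- powers
  have hpow : ∀ ψ ∈ S, ∀ m : ℕ, Complex.exp (2 * Real.pi * Complex.I * ((m : ℂ) * (n * (α ψ : ℂ)))) =
      ψ ((m * n) • z) := by
    intro ψ hψ m
    rw [AddChar.map_nsmul_eq_pow, hα ψ hψ, ← Complex.exp_nat_mul]
    congr 1
    push_cast
    ring
  have hpow' : ∀ ψ ∈ S, ∀ m : ℕ, Complex.exp (-(2 * Real.pi * Complex.I * ((m : ℂ) * (n * (α ψ : ℂ))))) =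
      ψ (-((m * n) • z)) := by
    intro ψ hψ m
    rw [Complex.exp_neg, hpow ψ hψ m]
    have h1 : ψ ((m * n) • z) * ψ (-((m * n) • z)) = 1 := by
      rw [← AddChar.map_add_eq_mul, add_neg_cancel, AddChar.map_zero_eq_one]
    exact (eq_inv_of_mul_eq_one_right h1).symm
  have hcos : ∀ ψ ∈ S, ∀ m : ℕ, ∀ c : ℝ, ((Real.cos (2 * Real.pi * m * (c - n * α ψ)) : ℝ) : ℂ) =
      (Complex.exp (2 * Real.pi * Complex.I * (m * c)) * ψ (-((m * n) • z)) +
        Complex.exp (-(2 * Real.pi * Complex.I * (m * c))) * ψ ((m * n) • z)) / 2 := by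
    intro ψ hψ m c
    rw [← hpow ψ hψ m, ← hpow' ψ hψ m, ← Complex.exp_add, ← Complex.exp_add, Complex.ofReal_cos, Complex.cos]
    congr 2
    · congr 1
      push_cast
      ring
    · congr 1
      push_cast
      ring
  -- the series
  have hs : ∀ ψ ∈ S, HasSum (fun m : ℕ => (w ψ * ψ b) * (((1 / (Real.pi ^ 2 * (m : ℝ) ^ 2) *
      (Real.cos (2 * Real.pi * m * (1 / 4 - n * α ψ)) -
      Real.cos (2 * Real.pi * m * (3 / 4 - n * α ψ))) : ℝ) : ℂ))) ((w ψ * ψ b) * ((n * α ψ : ℝ) : ℂ)) := by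
    intro ψ hψ
    have h1 := hα2 ψ hψ
    have h2 : |(n : ℝ) * α ψ| ≤ 1 / 4 := by
      rw [abs_mul, abs_of_pos hn0, mul_comm]
      exact h1
    have h3 := tri (n * α ψ) (abs_le.1 h2).1 (abs_le.1 h2).2
    exact (Complex.hasSum_ofReal.2 h3).mul_left _
  have hsum := hasSum_sum hs
  have hb : HasSum (fun m : ℕ => (2 * M / Real.pi ^ 2) * (1 / (m : ℝ) ^ 2)) ((2 * M / Real.pi ^ 2) * (Real.pi ^ 2 / 6)) :=
    hasSum_zeta_two.mul_left _
  have hbound := hsum.norm_le_of_bounded hb (by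
    intro m
    have h1 : ∑ ψ ∈ S, (w ψ * ψ b) * (((1 / (Real.pi ^ 2 * (m : ℝ) ^ 2) *
      (Real.cos (2 * Real.pi * m * (1 / 4 - n * α ψ)) -
      Real.cos (2 * Real.pi * m * (3 / 4 - n * α ψ))) : ℝ) : ℂ)) =
      ((1 / (Real.pi ^ 2 * (m : ℝ) ^ 2) : ℝ) : ℂ) * ((
        (Complex.exp (2 * Real.pi * Complex.I * (m * ((1 / 4 : ℝ) : ℂ))) -
          Complex.exp (2 * Real.pi * Complex.I * (m * ((3 / 4 : ℝ) : ℂ)))) *
            (∑ ψ ∈ S, w ψ * ψ (b + (-((m * n) • z)))) +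
        (Complex.exp (-(2 * Real.pi * Complex.I * (m * ((1 / 4 : ℝ) : ℂ)))) -
          Complex.exp (-(2 * Real.pi * Complex.I * (m * ((3 / 4 : ℝ) : ℂ))))) *
            (∑ ψ ∈ S, w ψ * ψ (b + (m * n) • z))) / 2) := by
      rw [Finset.mul_sum, Finset.mul_sum, ← Finset.sum_add_distrib, Finset.sum_div, Finset.mul_sum]
      refine Finset.sum_congr rfl fun ψ hψ => ?_
      rw [Complex.ofReal_mul, Complex.ofReal_sub, hcos ψ hψ m, hcos ψ hψ m, AddChar.map_add_eq_mul,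
        AddChar.map_add_eq_mul]
      ring
    rw [h1]
    have hexp : ∀ c : ℝ, ‖Complex.exp (2 * Real.pi * Complex.I * (m * (c : ℂ)))‖ = 1 := by
      intro c
      have : 2 * (Real.pi : ℂ) * Complex.I * (m * (c : ℂ)) = ((2 * Real.pi * (m * c) : ℝ) : ℂ) * Complex.I := by
        push_cast
        ring
      rw [this, Complex.norm_exp_ofReal_mul_I]
    have hexp' : ∀ c : ℝ, ‖Complex.exp (-(2 * Real.pi * Complex.I * (m * (c : ℂ))))‖ = 1 := by
      intro c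
      rw [Complex.exp_neg, norm_inv, hexp c, inv_one]
    have h2 : ‖Complex.exp (2 * Real.pi * Complex.I * (m * ((1 / 4 : ℝ) : ℂ))) -
          Complex.exp (2 * Real.pi * Complex.I * (m * ((3 / 4 : ℝ) : ℂ)))‖ ≤ 2 := by
      refine (norm_sub_le _ _).trans ?_
      rw [hexp, hexp]
      norm_num
    have h3 : ‖Complex.exp (-(2 * Real.pi * Complex.I * (m * ((1 / 4 : ℝ) : ℂ)))) -
          Complex.exp (-(2 * Real.pi * Complex.I * (m * ((3 / 4 : ℝ) : ℂ))))‖ ≤ 2 := by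
      refine (norm_sub_le _ _).trans ?_
      rw [hexp', hexp']
      norm_num
    have h4 := hM (b + (-((m * n) • z)))
    have h5 := hM (b + (m * n) • z)
    rw [norm_mul, norm_div]
    have h6 : ‖(Complex.exp (2 * Real.pi * Complex.I * (m * ((1 / 4 : ℝ) : ℂ))) -
          Complex.exp (2 * Real.pi * Complex.I * (m * ((3 / 4 : ℝ) : ℂ)))) *
            (∑ ψ ∈ S, w ψ * ψ (b + (-((m * n) • z)))) +
        (Complex.exp (-(2 * Real.pi * Complex.I * (m * ((1 / 4 : ℝ) : ℂ)))) -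
          Complex.exp (-(2 * Real.pi * Complex.I * (m * ((3 / 4 : ℝ) : ℂ))))) *
            (∑ ψ ∈ S, w ψ * ψ (b + (m * n) • z))‖ ≤ 2 * M + 2 * M := by
      refine (norm_add_le _ _).trans ?_
      rw [norm_mul, norm_mul]
      exact add_le_add (mul_le_mul h2 h4 (norm_nonneg _) (by norm_num))
        (mul_le_mul h3 h5 (norm_nonneg _) (by norm_num))
    have h7 : ‖((1 / (Real.pi ^ 2 * (m : ℝ) ^ 2) : ℝ) : ℂ)‖ = 1 / (Real.pi ^ 2 * (m : ℝ) ^ 2) := by
      rw [Complex.norm_real, Real.norm_eq_abs, abs_of_nonneg (by positivity)]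
    rw [h7]
    have h8 : ‖(2 : ℂ)‖ = 2 := by norm_num
    rw [h8]
    calc 1 / (Real.pi ^ 2 * (m : ℝ) ^ 2) * (_ / 2) ≤ 1 / (Real.pi ^ 2 * (m : ℝ) ^ 2) * ((2 * M + 2 * M) / 2) := by
          apply mul_le_mul_of_nonneg_left _ (by positivity)
          exact div_le_div_of_nonneg_right h6 (by norm_num)
      _ = (2 * M / Real.pi ^ 2) * (1 / (m : ℝ) ^ 2) := by
          rw [one_div, mul_inv]
          ring)
  have h9 : ∑ ψ ∈ S, (w ψ * ψ b) * ((n * α ψ : ℝ) : ℂ) = (n : ℂ) * ∑ ψ ∈ S, (w ψ * (α ψ : ℂ)) * ψ b := by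
    rw [Finset.mul_sum]
    refine Finset.sum_congr rfl fun ψ _ => ?_
    push_cast
    ring
  rw [h9, norm_mul, Complex.norm_natCast] at hbound
  have h10 : 2 * M / Real.pi ^ 2 * (Real.pi ^ 2 / 6) = M / 3 := by
    field_simp
    ring
  rw [h10] at hbound
  rw [le_div_iff₀ (by positivity)]
  linarith

theorem bern_pow (S : Finset (AddChar G ℂ)) (w : AddChar G ℂ → ℂ) (z : G) (α : AddChar G ℂ → ℝ) (n : ℕ) (hn : 0 < n)
    (hα : ∀ ψ ∈ S, ψ z = Complex.exp (2 * Real.pi * Complex.I * (α ψ : ℂ)))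
    (hα2 : ∀ ψ ∈ S, |α ψ| * n ≤ 1 / 4) (M : ℝ)
    (hM : ∀ b : G, ‖∑ ψ ∈ S, w ψ * ψ b‖ ≤ M) (j : ℕ) : ∀ b : G,
    ‖∑ ψ ∈ S, (w ψ * (α ψ : ℂ) ^ j) * ψ b‖ ≤ M / (3 * n) ^ j := by
  induction j with
  | zero =>
    intro b
    simpa using hM b
  | succ j ih =>
    intro b
    have h1 := bern1 S (fun ψ => w ψ * (α ψ : ℂ) ^ j) z α n hn hα hα2 _ ih b
    have h2 : ∑ ψ ∈ S, (w ψ * (α ψ : ℂ) ^ (j + 1)) * ψ b =
        ∑ ψ ∈ S, (w ψ * (α ψ : ℂ) ^ j * (α ψ : ℂ)) * ψ b := by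
      refine Finset.sum_congr rfl fun ψ _ => ?_
      ring
    rw [h2]
    refine h1.trans (le_of_eq ?_)
    rw [pow_succ, div_div]

/-- Bernstein's inequality: a bounded function with frequencies near `0` on the multiples of `z` hardly changes under
the translation by `z`; the sum of the coefficients does not matter. -/
theorem bern (S : Finset (AddChar G ℂ)) (w : AddChar G ℂ → ℂ) (z : G) (α : AddChar G ℂ → ℝ) (n : ℕ) (hn : 0 < n)
    (hα : ∀ ψ ∈ S, ψ z = Complex.exp (2 * Real.pi * Complex.I * (α ψ : ℂ)))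
    (hα2 : ∀ ψ ∈ S, |α ψ| * n ≤ 1 / 4) (M : ℝ)
    (hM : ∀ b : G, ‖∑ ψ ∈ S, w ψ * ψ b‖ ≤ M) (b : G) :
    ‖∑ ψ ∈ S, w ψ * ψ (b + z) - ∑ ψ ∈ S, w ψ * ψ b‖ ≤ M * (Real.exp (2 * Real.pi / (3 * n)) - 1) := by
  have h1 : ∀ ψ ∈ S, HasSum (fun j : ℕ => (w ψ * ψ b) * ((2 * Real.pi * Complex.I * (α ψ : ℂ)) ^ j / (j.factorial : ℂ)))
      ((w ψ * ψ b) * Complex.exp (2 * Real.pi * Complex.I * (α ψ : ℂ))) := by
    intro ψ _
    have := NormedSpace.expSeries_div_hasSum_exp (2 * Real.pi * Complex.I * (α ψ : ℂ))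
    rw [← Complex.exp_eq_exp_ℂ] at this
    exact this.mul_left _
  have h2 := hasSum_sum h1
  have h3 : ∑ ψ ∈ S, (w ψ * ψ b) * Complex.exp (2 * Real.pi * Complex.I * (α ψ : ℂ)) = ∑ ψ ∈ S, w ψ * ψ (b + z) := by
    refine Finset.sum_congr rfl fun ψ hψ => ?_
    rw [← hα ψ hψ, AddChar.map_add_eq_mul]
    ring
  rw [h3] at h2
  have h4 := (hasSum_nat_add_iff' 1).2 h2
  rw [Finset.sum_range_one] at h4
  have h5 : ∑ ψ ∈ S, (w ψ * ψ b) * ((2 * Real.pi * Complex.I * (α ψ : ℂ)) ^ 0 / ((0 : ℕ).factorial : ℂ)) =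
      ∑ ψ ∈ S, w ψ * ψ b := by
    refine Finset.sum_congr rfl fun ψ hψ => ?_
    simp
  rw [h5] at h4
  have h6 : HasSum (fun j : ℕ => (2 * Real.pi / (3 * n)) ^ j / (j.factorial : ℝ)) (Real.exp (2 * Real.pi / (3 * n))) := by
    have := NormedSpace.expSeries_div_hasSum_exp (2 * Real.pi / (3 * n) : ℝ)
    rw [← Real.exp_eq_exp_ℝ] at this
    exact this
  have h7 := ((hasSum_nat_add_iff' 1).2 h6).mul_left M
  rw [Finset.sum_range_one] at h7
  simp only [pow_zero, Nat.factorial_zero, Nat.cast_one, div_one] at h7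
  refine h4.norm_le_of_bounded h7 fun j => ?_
  have h8 : ∑ ψ ∈ S, (w ψ * ψ b) * ((2 * Real.pi * Complex.I * (α ψ : ℂ)) ^ (j + 1) / ((j + 1).factorial : ℂ)) =
      ((2 * Real.pi * Complex.I) ^ (j + 1) / ((j + 1).factorial : ℂ)) *
        ∑ ψ ∈ S, (w ψ * (α ψ : ℂ) ^ (j + 1)) * ψ b := by
    rw [Finset.mul_sum]
    refine Finset.sum_congr rfl fun ψ hψ => ?_
    rw [mul_pow]
    ring
  rw [h8, norm_mul, norm_div, norm_pow, Complex.norm_natCast]
  have h9 : ‖2 * (Real.pi : ℂ) * Complex.I‖ = 2 * Real.pi := by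
    rw [norm_mul, norm_mul, Complex.norm_I, Complex.norm_real, Real.norm_eq_abs, abs_of_pos Real.pi_pos]
    norm_num
  rw [h9]
  have h10 := bern_pow S w z α n hn hα hα2 M hM (j + 1) b
  calc (2 * Real.pi) ^ (j + 1) / ((j + 1).factorial : ℝ) * ‖∑ ψ ∈ S, (w ψ * (α ψ : ℂ) ^ (j + 1)) * ψ b‖ ≤
      (2 * Real.pi) ^ (j + 1) / ((j + 1).factorial : ℝ) * (M / (3 * n) ^ (j + 1)) := by
        apply mul_le_mul_of_nonneg_left h10
        have := Real.pi_pos
        positivity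
    _ = M * ((2 * Real.pi / (3 * n)) ^ (j + 1) / ((j + 1).factorial : ℝ)) := by
        rw [div_pow]
        ring

/-- the angle of a character value near `1` -/
theorem angle (u : ℂ) (hu : ‖u‖ = 1) (h : ‖u - 1‖ ≤ 1 / 100) :
    ∃ α : ℝ, u = Complex.exp (2 * Real.pi * Complex.I * (α : ℂ)) ∧ |α| * (100 : ℕ) ≤ 1 / 4 := by
  have hpi := Real.pi_pos
  refine ⟨Complex.arg u / (2 * Real.pi), ?_, ?_⟩
  · have h1 : 2 * (Real.pi : ℂ) * Complex.I * ((Complex.arg u / (2 * Real.pi) : ℝ) : ℂ) =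
        (Complex.arg u : ℂ) * Complex.I := by
      push_cast
      field_simp
    rw [h1]
    have := Complex.norm_mul_exp_arg_mul_I u
    rw [hu] at this
    simpa using this.symm
  · have h1 : u = Complex.exp (Complex.I * (Complex.arg u : ℂ)) := by
      have := Complex.norm_mul_exp_arg_mul_I u
      rw [hu] at this
      rw [mul_comm]
      simpa using this.symm
    have h2 : ‖2 * Real.sin (Complex.arg u / 2)‖ ≤ 1 / 100 := by
      rw [← Complex.norm_exp_I_mul_ofReal_sub_one, ← h1]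
      exact h
    have h3 := Complex.abs_arg_le_pi u
    have h4 : 2 / Real.pi * |Complex.arg u / 2| ≤ |Real.sin (Complex.arg u / 2)| := by
      apply Real.mul_abs_le_abs_sin
      rw [abs_div, abs_of_pos (show (0 : ℝ) < 2 by norm_num)]
      linarith
    rw [Real.norm_eq_abs, abs_mul, abs_of_pos (show (0 : ℝ) < 2 by norm_num)] at h2
    rw [abs_div, abs_of_pos (show (0 : ℝ) < 2 by norm_num)] at h4
    rw [abs_div, abs_of_pos (show (0 : ℝ) < 2 * Real.pi by positivity)]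
    have h5 : 2 / Real.pi * (|Complex.arg u| / 2) = 2 * (|Complex.arg u| / (2 * Real.pi)) := by
      field_simp
    rw [h5] at h4
    push_cast
    linarith

variable [Fintype G] [DecidableEq G]

/-- The Fourier part, without loss in the radius. -/
theorem fourier2 (A X : Finset G) (hA : A.Nonempty) (hX : X.Nonempty) (K : ℝ) (hK : 1 ≤ K)
    (h : ((A - A).card : ℝ) ≤ K * A.card) (k : ℕ) (hk : 20 * K ≤ 4 ^ k)
    (hS : ∀ x x' : Fin k → G, (∀ i, x i ∈ X) → (∀ i, x' i ∈ X) →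
      (9 / 10 : ℝ) * (A.card : ℝ) ^ 2 ≤
        (((A ×ˢ A).filter fun p => p.1 + ∑ i, (x i - x' i) - p.2 ∈ A - A).card : ℝ))
    (z : G) (hz : ∀ ψ : AddChar G ℂ, (X.card : ℝ) / 2 < ‖∑ x ∈ X, ψ x‖ → ‖ψ z - 1‖ ≤ 1 / 100) :
    ∃ a₁ ∈ A, ∃ a₂ ∈ A, ∃ a₃ ∈ A, ∃ a₄ ∈ A, z = a₁ + a₂ - a₃ - a₄ := by
  classical
  have hN : (0 : ℝ) < Fintype.card G := by
    have : Nonempty G := ⟨z⟩
    exact_mod_cast Fintype.card_pos
  have hAc : (0 : ℝ) < A.card := by exact_mod_cast hA.card_pos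
  have hXc : (0 : ℝ) < X.card := by exact_mod_cast hX.card_pos
  obtain ⟨T, hT⟩ : ∃ T : ℝ, T = (X.card : ℝ) ^ (2 * k) := ⟨_, rfl⟩
  have hT0 : 0 < T := by rw [hT]; positivity
  have hcard : ((TT A X k).card : ℝ) = (A.card : ℝ) ^ 2 * T := by
    rw [card_TT, hT]
    push_cast
    ring
  obtain ⟨Q, hQ⟩ : ∃ Q : ℝ, Q = (A.card : ℝ) ^ 2 * T := ⟨_, rfl⟩
  have hQ0 : 0 < Q := by rw [hQ]; positivity
  -- the count at `0`
  have hS0 : (9 / 10 : ℝ) * Q ≤ (((TT A X k).filter fun t => sh t + 0 ∈ A - A).card : ℝ) := by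
    have h1 : (((TT A X k).filter fun t => sh t + 0 ∈ A - A).card : ℝ) =
        ∑ x ∈ Fintype.piFinset (fun _ : Fin k => X), ∑ x' ∈ Fintype.piFinset (fun _ : Fin k => X),
          (((A ×ˢ A).filter fun p => p.1 + ∑ i, (x i - x' i) - p.2 ∈ A - A).card : ℝ) := by
      rw [Finset.card_filter]
      unfold TT sh
      push_cast
      rw [Finset.sum_product]
      refine Finset.sum_congr rfl fun x _ => ?_
      rw [Finset.sum_product]
      refine Finset.sum_congr rfl fun x' _ => ?_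
      rw [Finset.card_filter]
      push_cast
      refine Finset.sum_congr rfl fun p _ => ?_
      rw [add_zero]
    rw [h1]
    have h2 : ∑ x ∈ Fintype.piFinset (fun _ : Fin k => X), ∑ x' ∈ Fintype.piFinset (fun _ : Fin k => X),
        ((9 / 10 : ℝ) * (A.card : ℝ) ^ 2) ≤
        ∑ x ∈ Fintype.piFinset (fun _ : Fin k => X), ∑ x' ∈ Fintype.piFinset (fun _ : Fin k => X),
          (((A ×ˢ A).filter fun p => p.1 + ∑ i, (x i - x' i) - p.2 ∈ A - A).card : ℝ) := by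
      refine Finset.sum_le_sum fun x hx => Finset.sum_le_sum fun x' hx' => ?_
      rw [Fintype.mem_piFinset] at hx hx'
      exact hS x x' hx hx'
    refine le_trans (le_of_eq ?_) h2
    rw [Finset.sum_const, Finset.sum_const, Fintype.card_piFinset, hQ, hT]
    simp only [Finset.prod_const, Finset.card_univ, Fintype.card_fin, nsmul_eq_mul]
    push_cast
    ring
  -- the Fourier coefficients
  obtain ⟨w, hw⟩ : ∃ w : AddChar G ℂ → ℂ, w = fun ψ => (∑ b ∈ A - A, ψ (-b)) * ∑ t ∈ TT A X k, ψ (sh t) := ⟨_, rfl⟩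
  obtain ⟨cnt, hcnt⟩ : ∃ cnt : G → ℝ, cnt = fun b => (((TT A X k).filter fun t => sh t + b ∈ A - A).card : ℝ) :=
    ⟨_, rfl⟩
  have hcnt1 : ∀ b, ((cnt b : ℝ) : ℂ) * (Fintype.card G : ℂ) = ∑ ψ : AddChar G ℂ, w ψ * ψ b := by
    intro b
    rw [hcnt, hw]
    have h1 := count_char (A - A) A X k b
    simp only
    rw [h1]
    refine Finset.sum_congr rfl fun ψ _ => ?_
    ring
  have hcnt2 : ∀ b, cnt b ≤ Q := by
    intro b
    rw [hcnt, hQ, ← hcard]
    simp only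
    exact_mod_cast Finset.card_filter_le _ _
  have hcnt3 : ∀ b, 0 ≤ cnt b := by
    intro b
    rw [hcnt]
    simp only
    positivity
  obtain ⟨S, hSdef⟩ : ∃ S : Finset (AddChar G ℂ), S = Finset.univ.filter fun ψ => (X.card : ℝ) / 2 < ‖∑ x ∈ X, ψ x‖ :=
    ⟨_, rfl⟩
  -- the tail
  have htail : ∀ b, ‖((cnt b : ℝ) : ℂ) * (Fintype.card G : ℂ) - ∑ ψ ∈ S, w ψ * ψ b‖ ≤ Q / 20 * Fintype.card G := by
    intro b
    have h1 : ((cnt b : ℝ) : ℂ) * (Fintype.card G : ℂ) - ∑ ψ ∈ S, w ψ * ψ b =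
        ∑ ψ ∈ Finset.univ.filter (fun ψ : AddChar G ℂ => ¬ ((X.card : ℝ) / 2 < ‖∑ x ∈ X, ψ x‖)), w ψ * ψ b := by
      rw [hcnt1 b, hSdef, ← Finset.sum_filter_add_sum_filter_not Finset.univ
        (fun ψ : AddChar G ℂ => (X.card : ℝ) / 2 < ‖∑ x ∈ X, ψ x‖)]
      ring
    rw [h1]
    have h2 : ∑ ψ ∈ Finset.univ.filter (fun ψ : AddChar G ℂ => ¬ ((X.card : ℝ) / 2 < ‖∑ x ∈ X, ψ x‖)), ‖w ψ * ψ b‖ ≤
        ∑ ψ : AddChar G ℂ, (K * A.card) * ((T / (20 * K)) * ‖∑ a ∈ A, ψ a‖ ^ 2) := by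
      refine le_trans (Finset.sum_le_sum (g := fun ψ : AddChar G ℂ => (K * A.card) * ((T / (20 * K)) * ‖∑ a ∈ A, ψ a‖ ^ 2))
        fun ψ hψ => ?_)
        (Finset.sum_le_sum_of_subset_of_nonneg (Finset.filter_subset _ _) fun _ _ _ => by positivity)
      rw [Finset.mem_filter, not_lt] at hψ
      rw [hw, norm_mul, AddChar.norm_apply, mul_one]
      simp only
      rw [norm_mul, sum_TT]
      have h6 : ‖∑ b ∈ A - A, ψ (-b)‖ ≤ K * A.card := by
        refine (norm_sum_le _ _).trans (le_trans (le_of_eq ?_) h)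
        have : ∀ b ∈ A - A, ‖ψ (-b)‖ = 1 := fun b _ => AddChar.norm_apply ψ _
        rw [Finset.sum_congr rfl this]
        simp
      have h10 : ‖∑ x ∈ X, ψ x‖ ^ (2 * k) ≤ T / (20 * K) := by
        calc ‖∑ x ∈ X, ψ x‖ ^ (2 * k) ≤ ((X.card : ℝ) / 2) ^ (2 * k) :=
              pow_le_pow_left₀ (norm_nonneg _) hψ.2 _
          _ = T / 4 ^ k := by
              rw [hT, div_pow, pow_mul (2 : ℝ) 2 k]
              norm_num
          _ ≤ T / (20 * K) := by
              apply div_le_div_of_nonneg_left hT0.le (by positivity) hk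
      apply mul_le_mul h6 _ (by positivity) (by positivity)
      exact mul_le_mul_of_nonneg_right h10 (by positivity)
    refine (norm_sum_le _ _).trans (h2.trans (le_of_eq ?_))
    rw [← Finset.mul_sum, ← Finset.mul_sum, parseval, hQ]
    field_simp
  -- the main part is bounded
  have hM : ∀ b, ‖∑ ψ ∈ S, w ψ * ψ b‖ ≤ 21 / 20 * Q * Fintype.card G := by
    intro b
    have h1 := htail b
    have h2 : ‖((cnt b : ℝ) : ℂ) * (Fintype.card G : ℂ)‖ ≤ Q * Fintype.card G := by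
      rw [norm_mul, Complex.norm_natCast, Complex.norm_real, Real.norm_eq_abs, abs_of_nonneg (hcnt3 b)]
      exact mul_le_mul_of_nonneg_right (hcnt2 b) hN.le
    have h3 : ∑ ψ ∈ S, w ψ * ψ b = ((cnt b : ℝ) : ℂ) * (Fintype.card G : ℂ) -
      (((cnt b : ℝ) : ℂ) * (Fintype.card G : ℂ) - ∑ ψ ∈ S, w ψ * ψ b) := by ring
    rw [h3]
    refine (norm_sub_le _ _).trans ?_
    linarith
  -- Bernstein
  have hangle : ∀ ψ : AddChar G ℂ, ∃ α : ℝ, ψ ∈ S →
      (ψ z = Complex.exp (2 * Real.pi * Complex.I * (α : ℂ)) ∧ |α| * (100 : ℕ) ≤ 1 / 4) := by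
    intro ψ
    by_cases hψ : ψ ∈ S
    · have h1 : (X.card : ℝ) / 2 < ‖∑ x ∈ X, ψ x‖ := by
        rw [hSdef, Finset.mem_filter] at hψ
        exact hψ.2
      obtain ⟨α, h2, h3⟩ := angle (ψ z) (AddChar.norm_apply ψ z) (hz ψ h1)
      exact ⟨α, fun _ => ⟨h2, h3⟩⟩
    · exact ⟨0, fun h => absurd h hψ⟩
  choose α hα using hangle
  have hbern := bern S w z α 100 (by norm_num) (fun ψ hψ => (hα ψ hψ).1) (fun ψ hψ => (hα ψ hψ).2) _ hM 0
  rw [zero_add] at hbern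
  have hexp : Real.exp (2 * Real.pi / (3 * (100 : ℕ))) - 1 ≤ 22 / 1000 := by
    have hpi := Real.pi_pos
    have hpi2 : Real.pi < 3.15 := Real.pi_lt_d2
    have hx : 2 * Real.pi / (3 * (100 : ℕ)) ≤ 21 / 1000 := by
      push_cast
      linarith
    have hx0 : 0 ≤ 2 * Real.pi / (3 * (100 : ℕ)) := by positivity
    have h1 := Real.abs_exp_sub_one_sub_id_le (x := 2 * Real.pi / (3 * (100 : ℕ))) (by
      rw [abs_of_nonneg hx0]
      linarith)
    have h2 := (abs_le.1 h1).2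
    nlinarith
  have hdiff : |cnt z - cnt 0| ≤ 13 / 100 * Q := by
    have h1 := htail z
    have h2 := htail 0
    have h3 : ‖(((cnt z - cnt 0 : ℝ)) : ℂ) * (Fintype.card G : ℂ)‖ ≤
        Q / 20 * Fintype.card G + Q / 20 * Fintype.card G + 21 / 20 * Q * Fintype.card G * (22 / 1000) := by
      have h4 : (((cnt z - cnt 0 : ℝ)) : ℂ) * (Fintype.card G : ℂ) =
          ((((cnt z : ℝ) : ℂ) * (Fintype.card G : ℂ) - ∑ ψ ∈ S, w ψ * ψ z) -
          (((cnt 0 : ℝ) : ℂ) * (Fintype.card G : ℂ) - ∑ ψ ∈ S, w ψ * ψ 0)) +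
          (∑ ψ ∈ S, w ψ * ψ z - ∑ ψ ∈ S, w ψ * ψ 0) := by
        push_cast
        ring
      rw [h4]
      refine (norm_add_le _ _).trans (add_le_add ((norm_sub_le _ _).trans (add_le_add h1 h2)) (hbern.trans ?_))
      exact mul_le_mul_of_nonneg_left hexp (by positivity)
    rw [norm_mul, Complex.norm_natCast, Complex.norm_real, Real.norm_eq_abs] at h3
    have h5 : Q / 20 * Fintype.card G + Q / 20 * Fintype.card G + 21 / 20 * Q * Fintype.card G * (22 / 1000) ≤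
        (13 / 100 * Q) * (Fintype.card G : ℝ) := by
      have : 0 < Q * (Fintype.card G : ℝ) := by positivity
      nlinarith
    exact le_of_mul_le_mul_right (h3.trans h5) hN
  by_contra hcon
  have hdisj : Disjoint ((TT A X k).filter fun t => sh t + z ∈ A - A)
      ((TT A X k).filter fun t => sh t + 0 ∈ A - A) := by
    rw [Finset.disjoint_left]
    intro t ht ht'
    rw [Finset.mem_filter] at ht ht'
    apply hcon
    obtain ⟨a₁, h1, a₃, h3, h13⟩ := Finset.mem_sub.1 ht.2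
    obtain ⟨a₄, h4, a₂, h2, h24⟩ := Finset.mem_sub.1 ht'.2
    refine ⟨a₁, h1, a₂, h2, a₃, h3, a₄, h4, ?_⟩
    rw [add_zero] at h24
    have : z = (sh t + z) - sh t := by abel
    rw [this, ← h13, ← h24]
    abel
  have hle : (((TT A X k).filter fun t => sh t + z ∈ A - A).card : ℝ) +
      (((TT A X k).filter fun t => sh t + 0 ∈ A - A).card : ℝ) ≤ (TT A X k).card := by
    rw [← Nat.cast_add, ← Finset.card_union_of_disjoint hdisj]
    exact_mod_cast Finset.card_le_card (Finset.union_subset (Finset.filter_subset _ _) (Finset.filter_subset _ _))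
  rw [hcard, ← hQ] at hle
  rw [hcnt] at hdiff
  simp only at hdiff
  have h9 := abs_le.1 hdiff
  linarith [h9.1, hS0, hle]

end Pool.Agent.R539.BB
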