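import Pool.Agent.R539.BB.P1
import Pool.Agent.R539.BB.P2
import Pool.Agent.R539.BB.P5
import Pool.Agent.R539.BB.P6

set_option autoImplicit false

open Finset
open scoped Pointwise

namespace Pool.Agent.R539.BB

/-- The general theorem, without loss in the radius. -/
def Gen2Stm : Prop := ∀ (G : Type) [AddCommGroup G] [Fintype G] [DecidableEq G] (A : Finset G) (K : ℝ),
  A.Nonempty → 1 ≤ K → ((A - A).card : ℝ) ≤ K * A.card →
  ∃ Λ : Finset (AddChar G ℂ),
    (Λ.card : ℝ) ≤ 8 * (Real.log ((Fintype.card G : ℝ) / A.card) + 1 + 89601 * Real.log (20 * K) ^ 4) ∧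
    ∀ z : G, (∀ l ∈ Λ, ‖l z - 1‖ ≤ 1 / (100 * (Λ.card + 1))) →
      ∃ a₁ ∈ A, ∃ a₂ ∈ A, ∃ a₃ ∈ A, ∃ a₄ ∈ A, z = a₁ + a₂ - a₃ - a₄

theorem gen2 : Gen2Stm := by
  intro G _ _ _ A K hA hK h
  have hAc : (0 : ℝ) < A.card := by exact_mod_cast hA.card_pos
  have hK0 : (0 : ℝ) < K := by linarith
  obtain ⟨κ, hκ⟩ : ∃ κ : ℝ, κ = Real.log (20 * K) := ⟨_, rfl⟩
  have hexp : Real.exp κ = 20 * K := by rw [hκ]; exact Real.exp_log (by positivity)
  have hκ1 : 1 ≤ κ := by
    have h1 : Real.exp 1 ≤ Real.exp κ := by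
      rw [hexp]
      have := Real.exp_one_lt_d9
      linarith
    exact Real.exp_le_exp.1 h1
  rw [← hκ]
  obtain ⟨k, hk⟩ : ∃ k : ℕ, k = ⌈κ⌉₊ := ⟨_, rfl⟩
  have hkκ : κ ≤ k := by rw [hk]; exact Nat.le_ceil _
  have hkκ2 : (k : ℝ) ≤ 2 * κ := by
    have : (k : ℝ) < κ + 1 := by rw [hk]; exact Nat.ceil_lt_add_one (by linarith)
    linarith
  have hk1 : 1 ≤ k := by
    have : (1 : ℝ) ≤ k := by linarith
    exact_mod_cast this
  have hk0 : (0 : ℝ) < k := by linarith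
  have hk4 : 20 * K ≤ 4 ^ k := by
    rw [← hexp]
    calc Real.exp κ ≤ Real.exp k := Real.exp_le_exp.2 hkκ
      _ = Real.exp 1 ^ k := by rw [← Real.exp_nat_mul, mul_one]
      _ ≤ 4 ^ k := by
          apply pow_le_pow_left₀ (Real.exp_pos 1).le
          have := Real.exp_one_lt_d9
          linarith
  obtain ⟨M, hM⟩ : ∃ M : ℕ, M = ⌈3200 * (k : ℝ) ^ 2 * Real.log (160 * (k : ℝ) * K ^ 3)⌉₊ := ⟨_, rfl⟩
  have hlogK0 : 0 ≤ Real.log K := Real.log_nonneg hK
  have hlogK : Real.log K ≤ κ := by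
    rw [hκ]
    exact Real.log_le_log hK0 (by linarith)
  have hlog : Real.log (160 * (k : ℝ) * K ^ 3) ≤ 7 * κ := by
    rw [Real.log_mul (by positivity) (by positivity), Real.log_mul (by norm_num) hk0.ne', Real.log_pow]
    have h1 : Real.log 160 ≤ 2 * κ := by
      rw [← Real.log_exp (2 * κ)]
      apply Real.log_le_log (by norm_num)
      rw [two_mul, Real.exp_add, hexp]
      nlinarith
    have h2 : Real.log k ≤ 2 * κ := by
      have := Real.log_le_sub_one_of_pos hk0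
      linarith
    push_cast
    linarith
  have hlog0 : 0 ≤ Real.log (160 * (k : ℝ) * K ^ 3) := by
    apply Real.log_nonneg
    have h1 : (1 : ℝ) ≤ K ^ 3 := one_le_pow₀ hK
    have h2 : (1 : ℝ) ≤ k := by exact_mod_cast hk1
    nlinarith
  have hMκ : (M : ℝ) ≤ 89601 * κ ^ 3 := by
    have h1 : (M : ℝ) < 3200 * (k : ℝ) ^ 2 * Real.log (160 * (k : ℝ) * K ^ 3) + 1 := by
      rw [hM]; exact Nat.ceil_lt_add_one (by positivity)
    have h2 : 3200 * (k : ℝ) ^ 2 * Real.log (160 * (k : ℝ) * K ^ 3) ≤ 3200 * (2 * κ) ^ 2 * (7 * κ) := by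
      apply mul_le_mul _ hlog hlog0 (by positivity)
      apply mul_le_mul_of_nonneg_left _ (by norm_num)
      exact pow_le_pow_left₀ hk0.le hkκ2 2
    have h3 : 3200 * (2 * κ) ^ 2 * (7 * κ) = 89600 * κ ^ 3 := by ring
    have h4 : 1 ≤ κ ^ 3 := one_le_pow₀ hκ1
    linarith
  have hMk : 160 * (k : ℝ) * K ^ 3 ≤ Real.exp (M / (3200 * (k : ℝ) ^ 2)) := by
    rw [← Real.exp_log (show (0 : ℝ) < 160 * (k : ℝ) * K ^ 3 by positivity)]
    apply Real.exp_le_exp.2
    rw [le_div_iff₀ (by positivity), hM, mul_comm]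
    exact Nat.le_ceil _
  obtain ⟨X, hX, hXc, hS⟩ := sisask A hA K hK h k hk1 M hMk
  have hXcp : (0 : ℝ) < X.card := by exact_mod_cast hX.card_pos
  obtain ⟨Λ, hΛ, hΛ'⟩ := chang G X hX
  refine ⟨Λ, hΛ.trans ?_, ?_⟩
  · apply mul_le_mul_of_nonneg_left _ (by norm_num)
    have hG : (0 : ℝ) < Fintype.card G := by
      obtain ⟨a, _⟩ := hA
      have : Nonempty G := ⟨a⟩
      exact_mod_cast Fintype.card_pos
    have h1 : (Fintype.card G : ℝ) / X.card ≤ (Fintype.card G : ℝ) / A.card * (2 * K ^ M) := by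
      rw [div_mul_eq_mul_div, div_le_div_iff₀ hXcp hAc]
      calc (Fintype.card G : ℝ) * A.card ≤ (Fintype.card G : ℝ) * (2 * K ^ M * X.card) :=
            mul_le_mul_of_nonneg_left hXc hG.le
        _ = _ := by ring
    have h2 := Real.log_le_log (by positivity) h1
    rw [Real.log_mul (by positivity) (by positivity), Real.log_mul (by norm_num) (by positivity),
      Real.log_pow] at h2
    have h3 : Real.log 2 ≤ 1 := by
      have := Real.log_two_lt_d9
      linarith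
    have h4 : (M : ℝ) * Real.log K ≤ 89601 * κ ^ 4 := by
      calc (M : ℝ) * Real.log K ≤ (89601 * κ ^ 3) * κ :=
            mul_le_mul hMκ hlogK hlogK0 (by positivity)
        _ = _ := by ring
    linarith
  · intro z hz
    apply fourier2 A X hA hX K hK h k hk4 hS z
    intro ψ hψ
    refine (hΛ' ψ hψ z _ hz).trans ?_
    have h1 : (0 : ℝ) ≤ Λ.card := by positivity
    rw [mul_one_div, div_le_div_iff₀ (by positivity) (by positivity)]
    nlinarith

/-- the Bohr set for a set of large energy -/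
theorem common2 (hg : Gen2Stm) (N : ℕ) (hN : 0 < N) (A : Finset (ZMod N)) (hA : A.Nonempty) (K : ℝ)
    (hK : 1 ≤ K) (hE : (A.card : ℝ) ^ 3 ≤ K * energy A) :
    ∃ (Γ : Finset (ZMod N)) (m : ℕ), Γ.card ≤ m ∧
      (m : ℝ) ≤ 8 * (Real.log (N / A.card) + Real.log (8 * K) + 1 +
        89601 * Real.log (20 * (2 ^ 22 * K ^ 10)) ^ 4) ∧
      ∀ x : ZMod N, (∀ γ ∈ Γ, nrm (γ * x) ≤ 1 / (630 * (m + 1))) →
        x ∈ twoAMinusTwoA A := by
  classical
  have : NeZero N := ⟨hN.ne'⟩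
  have hNr : (0 : ℝ) < N := by exact_mod_cast hN
  have hE' : (A.card : ℝ) ^ 3 ≤ K * (A.addEnergy A : ℕ) := by
    refine hE.trans ?_
    have : (energy A : ℝ) ≤ (A.addEnergy A : ℕ) := by exact_mod_cast energy_le A
    gcongr
  obtain ⟨B, hBA, hB, hB1, hB2⟩ := Pool.Agent.H217R3.AK.bsg A hA K (by linarith) hE'
  have hBpos : (0 : ℝ) < B.card := by exact_mod_cast hB.card_pos
  have hApos : (0 : ℝ) < A.card := by exact_mod_cast hA.card_pos
  obtain ⟨Λ, hΛ, hΛ2⟩ := hg (ZMod N) B (2 ^ 22 * K ^ 10) hB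
    (by
      have : (1 : ℝ) ≤ K ^ 10 := one_le_pow₀ hK
      nlinarith) hB2
  choose g hgb using fun ψ : AddChar (ZMod N) ℂ => char_bound ψ
  refine ⟨Λ.image g, Λ.card, Finset.card_image_le, ?_, ?_⟩
  · refine hΛ.trans ?_
    have h1 : Real.log ((Fintype.card (ZMod N) : ℝ) / B.card) ≤
        Real.log (N / A.card) + Real.log (8 * K) := by
      rw [ZMod.card, ← Real.log_mul (by positivity) (by positivity)]
      apply Real.log_le_log (by positivity)
      rw [div_mul_eq_mul_div, div_le_div_iff₀ hBpos hApos]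
      nlinarith
    linarith
  · intro x hx
    obtain ⟨a₁, h1, a₂, h2, a₃, h3, a₄, h4, h5⟩ := hΛ2 x (by
      intro l hl
      have h6 := hx (g l) (Finset.mem_image_of_mem g hl)
      refine (hgb l x).trans ?_
      have hpi : Real.pi < 3.15 := Real.pi_lt_d2
      have hpp := Real.pi_pos
      have hnn : 0 ≤ nrm (g l * x) := abs_nonneg _
      calc 2 * Real.pi * nrm (g l * x) ≤ 6.3 * (1 / (630 * (Λ.card + 1))) := by
            gcongr
            linarith
        _ = 1 / (100 * (Λ.card + 1)) := by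
            field_simp
            norm_num)
    exact ⟨a₁, hBA h1, a₂, hBA h2, a₃, hBA h3, a₄, hBA h4, h5⟩

/-- The final form for energies. -/
def Rank2Stm : Prop := ∀ (N : ℕ), 0 < N → ∀ A : Finset (ZMod N), A.Nonempty →
  (A.card : ℝ) / (N : ℝ) ≤ 1 / 2 → ∀ K : ℝ, 1 ≤ K → (A.card : ℝ) ^ 3 ≤ K * energy A →
    ∃ Γ : Finset (ZMod N),
      (Γ.card : ℝ) ≤ 10 ^ 12 * (Real.log ((N : ℝ) / (A.card : ℝ)) + Real.log (2 * K) ^ 4) ∧
      bohr Γ (1 / (10 ^ 15 * (Real.log ((N : ℝ) / (A.card : ℝ)) + Real.log (2 * K) ^ 4))) ⊆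
        twoAMinusTwoA A

theorem rank2 (hg : Gen2Stm) : Rank2Stm := by
  intro N hN A hA hd K hK hE
  obtain ⟨Γ, m, h1, h2, h3⟩ := common2 hg N hN A hA K hK hE
  have hl := log_card hN A hA hd
  obtain ⟨l, hldef⟩ : ∃ l, l = Real.log ((N : ℝ) / (A.card : ℝ)) := ⟨_, rfl⟩
  obtain ⟨u, hudef⟩ : ∃ u, u = Real.log (2 * K) := ⟨_, rfl⟩
  rw [← hldef] at hl h2 ⊢
  rw [← hudef]
  have hK0 : 0 < K := by linarith
  have hlt := Real.log_two_lt_d9
  have hgt := Real.log_two_gt_d9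
  have hu2 : Real.log 2 ≤ u := by
    rw [hudef]
    apply Real.log_le_log (by norm_num)
    linarith
  have e1 : Real.log (8 * K) = u + 2 * Real.log 2 := by
    rw [hudef, show 8 * K = (2 * K) * (2 ^ 2) by ring, Real.log_mul (by positivity) (by positivity),
      Real.log_pow]
    norm_num
  have e2 : Real.log (20 * (2 ^ 22 * K ^ 10)) ≤ 27 * u := by
    have h4 : Real.log (20 * (2 ^ 22 * K ^ 10)) ≤ Real.log ((2 * K) ^ 10 * 2 ^ 17) := by
      apply Real.log_le_log (by positivity)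
      have : 0 < K ^ 10 := by positivity
      nlinarith
    have h5 : Real.log ((2 * K) ^ 10 * 2 ^ 17) = 10 * u + 17 * Real.log 2 := by
      rw [Real.log_mul (by positivity) (by positivity), Real.log_pow, Real.log_pow, ← hudef]
      norm_num
    linarith
  have e3 : 0 ≤ Real.log (20 * (2 ^ 22 * K ^ 10)) := by
    apply Real.log_nonneg
    have : 1 ≤ K ^ 10 := one_le_pow₀ hK
    nlinarith
  have e4 : Real.log (20 * (2 ^ 22 * K ^ 10)) ^ 4 ≤ 531441 * u ^ 4 := by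
    calc _ ≤ (27 * u) ^ 4 := pow_le_pow_left₀ e3 e2 4
      _ = _ := by ring
  have e5 : u ≤ 4 * u ^ 4 := by
    have h5 : (0.6931 : ℝ) ≤ u := by linarith
    have h6 : (0.6931 : ℝ) ^ 3 ≤ u ^ 3 := pow_le_pow_left₀ (by norm_num) h5 3
    have h7 : (0.33 : ℝ) ≤ u ^ 3 := le_trans (by norm_num) h6
    have h8 : u ^ 4 = u ^ 3 * u := by ring
    rw [h8]
    nlinarith
  rw [e1] at h2
  have hm : (m : ℝ) + 1 ≤ 39 * 10 ^ 10 * (l + u ^ 4) := by
    nlinarith
  have hpos : 0 < l + u ^ 4 := by positivity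
  refine ⟨Γ, ?_, ?_⟩
  · have : (Γ.card : ℝ) ≤ m := by exact_mod_cast h1
    nlinarith
  · intro x hx
    apply h3 x
    intro γ hγ
    have h4 : nrm (γ * x) ≤ 1 / (10 ^ 15 * (l + u ^ 4)) := hx γ hγ
    refine h4.trans ?_
    apply one_div_le_one_div_of_le (by positivity)
    calc 630 * ((m : ℝ) + 1) ≤ 630 * (39 * 10 ^ 10 * (l + u ^ 4)) := by gcongr
      _ ≤ 10 ^ 15 * (l + u ^ 4) := by nlinarith

end Pool.Agent.R539.BB
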