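import Mathlib

/-!
# Statements for MP_169871_nt: Bohr sets in `2A - 2A` for sets of large additive energy
-/

set_option autoImplicit false

open Finset
open scoped Pointwise

namespace Pool.Agent.R539.BB

/-- P1: Chang's theorem (level `1/2`). -/
def ChangStm : Prop := ∀ (G : Type) [AddCommGroup G] [Fintype G] [DecidableEq G] (X : Finset G),
  X.Nonempty → ∃ Λ : Finset (AddChar G ℂ),
    (Λ.card : ℝ) ≤ 8 * Real.log ((Fintype.card G : ℝ) / X.card) ∧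
    ∀ ψ : AddChar G ℂ, (X.card : ℝ) / 2 < ‖∑ x ∈ X, ψ x‖ →
      ∀ (z : G) (r : ℝ), (∀ l ∈ Λ, ‖l z - 1‖ ≤ r) → ‖ψ z - 1‖ ≤ Λ.card * r

/-- P4: the general theorem. -/
def GenStm : Prop := ∀ (G : Type) [AddCommGroup G] [Fintype G] [DecidableEq G] (A : Finset G) (K : ℝ),
  A.Nonempty → 1 ≤ K → ((A - A).card : ℝ) ≤ K * A.card →
  ∃ Λ : Finset (AddChar G ℂ),
    (Λ.card : ℝ) ≤ 8 * (Real.log ((Fintype.card G : ℝ) / A.card) + 1 + 89601 * Real.log (20 * K) ^ 4) ∧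
    ∀ z : G, (∀ l ∈ Λ, ‖l z - 1‖ ≤ 1 / (10 * K * (Λ.card + 1))) →
      ∃ a₁ ∈ A, ∃ a₂ ∈ A, ∃ a₃ ∈ A, ∃ a₄ ∈ A, z = a₁ + a₂ - a₃ - a₄

/-- The Bohr set `B(Γ, ε) = {x ∈ ℤ/N : ‖γ x / N‖ ≤ ε for all γ ∈ Γ}`; the norm is the distance to the nearest
integer. -/
def bohr {N : ℕ} (Γ : Finset (ZMod N)) (ε : ℝ) : Set (ZMod N) :=
  {x | ∀ γ ∈ Γ, |((γ * x).val : ℝ) / (N : ℝ) - ((round (((γ * x).val : ℝ) / (N : ℝ)) : ℤ) : ℝ)| ≤ ε}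

/-- The set `2A - 2A`. -/
def twoAMinusTwoA {N : ℕ} (A : Finset (ZMod N)) : Set (ZMod N) :=
  {x | ∃ a₁ ∈ A, ∃ a₂ ∈ A, ∃ a₃ ∈ A, ∃ a₄ ∈ A, x = a₁ + a₂ - a₃ - a₄}

/-- The number of `(a₁, a₂, a₃, a₄) ∈ A⁴` with `a₁ + a₂ = a₃ + a₄`. -/
def energy {N : ℕ} (A : Finset (ZMod N)) : ℕ :=
  ((A ×ˢ A ×ˢ A ×ˢ A).filter fun p => p.1 + p.2.1 = p.2.2.1 + p.2.2.2).card

/-- P5, first part. -/
def RankStm : Prop := ∀ (N : ℕ), 0 < N → ∀ A : Finset (ZMod N), A.Nonempty →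
  (A.card : ℝ) / (N : ℝ) ≤ 1 / 2 → ∀ K : ℝ, 1 ≤ K → (A.card : ℝ) ^ 3 ≤ K * energy A →
    ∃ Γ : Finset (ZMod N),
      (Γ.card : ℝ) ≤ 10 ^ 12 * (Real.log ((N : ℝ) / (A.card : ℝ)) + Real.log (2 * K) ^ 4) ∧
      bohr Γ (1 / (10 ^ 21 * K ^ 10 * (Real.log ((N : ℝ) / (A.card : ℝ)) + Real.log (2 * K) ^ 4))) ⊆
        twoAMinusTwoA A

/-- P5, second part. -/
def PolyStm : Prop := ∀ (N : ℕ), 0 < N → ∀ A : Finset (ZMod N), A.Nonempty →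
  (A.card : ℝ) / (N : ℝ) ≤ 1 / 2 → ∀ D : ℕ, 1 ≤ D →
    (A.card : ℝ) ^ 3 ≤ (2 + Real.log ((N : ℝ) / (A.card : ℝ))) ^ D * energy A →
    ∃ Γ : Finset (ZMod N),
      (Γ.card : ℝ) ≤ 10 ^ 17 * (D : ℝ) ^ 5 * Real.log ((N : ℝ) / (A.card : ℝ)) ∧
      bohr Γ (1 / (12 * Real.log ((N : ℝ) / (A.card : ℝ)))) ⊆ twoAMinusTwoA A

end Pool.Agent.R539.BB
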